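import Pool.Agent.MP_ee8c61_ag.M3B1.Spec

/-! The order along a prime element of a noetherian domain. -/

namespace Pool.Agent.MP_ee8c61_ag.M3B1

open M3 (Un DV Lc)

variable {K : Type} [Field K]

theorem dv_zpow (d : DV K) {z : K} (hz : z ≠ 0) (n : ℤ) : d.v (z ^ n) = n * d.v z := by
  have h : ∀ m : ℕ, d.v (z ^ m) = m * d.v z := fun m => by
    induction m with
    | zero => simp [d.one]
    | succ m ih =>
      rw [pow_succ, d.mul _ _ (pow_ne_zero _ hz) hz, ih]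
      push_cast
      ring
  cases n with
  | ofNat m => simpa using h m
  | negSucc m =>
    rw [zpow_negSucc, d.inv, h, Int.negSucc_eq]
    push_cast
    ring

theorem dv_un (d : DV K) {u : K} : Un d.O u ↔ u ≠ 0 ∧ d.v u = 0 := by
  refine ⟨fun ⟨h0, h1, h2⟩ => ⟨h0, ?_⟩, fun ⟨h0, h1⟩ => ⟨h0, Or.inr h1.ge, Or.inr ?_⟩⟩
  · have a := Or.resolve_left h1 h0
    have b := Or.resolve_left h2 (inv_ne_zero h0)
    rw [d.inv] at b
    omega
  · rw [d.inv, h1]
    rfl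

/-- A ring of an integer valuation is maximal among the proper valuation rings. -/
theorem dv_max (d : DV K) (V : ValuationSubring K) (hle : d.O ≤ V) (hV : V ≠ ⊤) : V = d.O := by
  refine le_antisymm (fun x hx => ?_) hle
  by_contra hn
  have h0 : x ≠ 0 := fun e => hn (Or.inl e)
  have h1 : d.v x < 0 := not_le.1 fun e => hn (Or.inr e)
  refine hV (eq_top_iff.2 fun y _ => ?_)
  by_cases hy : y = 0
  · exact hy ▸ zero_mem V
  have hk : x ^ (d.v y).natAbs ≠ 0 := pow_ne_zero _ h0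
  have h2 : y * (x ^ (d.v y).natAbs)⁻¹ ∈ d.O := by
    refine Or.inr ?_
    rw [d.mul _ _ hy (inv_ne_zero hk), d.inv, ← zpow_natCast, dv_zpow d h0]
    have a : (0 : ℤ) ≤ (d.v y).natAbs := Int.natCast_nonneg _
    have b : -d.v y ≤ (d.v y).natAbs := by omega
    nlinarith
  have h3 := mul_mem (hle h2) (pow_mem hx (d.v y).natAbs)
  rwa [inv_mul_cancel_right₀ hk] at h3

/-- Two integer valuations with the same ring are proportional. -/
theorem dv_prop {d d1 : DV K} (h : d.O = d1.O) {z : K} (hz : d.v z = 1) (x : K) :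
    d1.v x = d.v x * d1.v z := by
  have h0 : z ≠ 0 := fun e => by
    rw [e, d.zero] at hz
    omega
  by_cases hx : x = 0
  · rw [hx, d.zero, d1.zero, zero_mul]
  have hk : z ^ (-d.v x) ≠ 0 := zpow_ne_zero _ h0
  have h1 : Un d.O (x * z ^ (-d.v x)) := (dv_un d).2 ⟨mul_ne_zero hx hk, by
    rw [d.mul _ _ hx hk, dv_zpow d h0, hz]
    ring⟩
  rw [h] at h1
  have h2 := ((dv_un d1).1 h1).2
  rw [d1.mul _ _ hx hk, dv_zpow d1 h0] at h2
  linarith

theorem dv_ext {d d1 : DV K} (h : d.v = d1.v) : d = d1 := by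
  cases d
  cases d1
  cases h
  rfl

theorem dv_uniq {d d1 : DV K} (h : d.O = d1.O) {z z1 : K} (hz : d.v z = 1) (hz1 : d1.v z1 = 1) :
    d = d1 := by
  have a := dv_prop h hz z1
  have b : 0 ≤ d1.v z := by
    have : z ∈ d1.O := h ▸ (Or.inr (by omega) : z ∈ d.O)
    rcases this with e | e
    · rw [e, d1.zero]
    · exact e
  have c : d1.v z = 1 := Int.eq_one_of_mul_eq_one_left b (a.symm.trans hz1)
  refine dv_ext (funext fun x => ?_)
  rw [dv_prop h hz x, c, mul_one]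

variable [Algebra ℂ K] {B B1 : Subalgebra ℂ K} {z z1 : K} {d d1 : DV K}

theorem IsDV.ne (h : IsDV B z d) : z ≠ 0 := fun e => by
  have := h.one
  rw [e, d.zero] at this
  omega

theorem IsDV.uniq' (h : IsDV B z d) (h1 : IsDV B1 z1 d1) (e : d.O = d1.O) : d = d1 :=
  dv_uniq e h.one h1.one

theorem IsDV.uniq (h : IsDV B z d) (h1 : IsDV B1 z1 d1) (e : d.O = d1.O) : d.v = d1.v :=
  congrArg DV.v (h.uniq' h1 e)

theorem IsDV.max (_ : IsDV B z d) (V : ValuationSubring K) (hle : d.O ≤ V) (hV : V ≠ ⊤) :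
    V = d.O := dv_max d V hle hV

/-- `a` is an element of `B` not divisible by `z`. -/
def Nd (B : Subalgebra ℂ K) (z a : K) : Prop := a ∈ B ∧ a * z⁻¹ ∉ B

/-- `x` has order `n` along `z`. -/
def Od (B : Subalgebra ℂ K) (z x : K) (n : ℤ) : Prop :=
  ∃ a b, Nd B z a ∧ Nd B z b ∧ x * b = z ^ n * a

theorem Nd.ne {a : K} (h : Nd B z a) : a ≠ 0 := fun e => h.2 (by rw [e, zero_mul]; exact zero_mem _)

theorem nd_iff {hz : z ∈ B} (h0 : z ≠ 0) (a : B) : Nd B z a ↔ ¬ (⟨z, hz⟩ : B) ∣ a := by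
  refine ⟨fun h ⟨c, e⟩ => h.2 ?_, fun h => ⟨a.2, fun e => h ⟨⟨_, e⟩, Subtype.ext ?_⟩⟩⟩
  · rw [e]
    change z * c * z⁻¹ ∈ B
    rw [mul_comm z, mul_inv_cancel_right₀ h0]
    exact c.2
  · change (a : K) = z * (a * z⁻¹)
    rw [mul_comm z, inv_mul_cancel_right₀ h0]

theorem rowDVR : RowDVR := by
  intro K _ _ B z hz hN hfr hp
  have h0 : z ≠ 0 := fun e => hp.ne_zero (Subtype.ext e)
  have nmul : ∀ {a b : K}, Nd B z a → Nd B z b → Nd B z (a * b) := fun {a b} ha hb =>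
    (nd_iff (hz := hz) h0 (⟨a, ha.1⟩ * ⟨b, hb.1⟩)).2 fun h => (hp.dvd_or_dvd h).elim
      ((nd_iff h0 ⟨a, ha.1⟩).1 ha) ((nd_iff h0 ⟨b, hb.1⟩).1 hb)
  have none : Nd B z 1 := (nd_iff (hz := hz) h0 1).2 hp.not_dvd_one
  have zp : ∀ {n : ℤ}, 0 ≤ n → z ^ n ∈ B := fun {n} hn => by
    obtain ⟨m, rfl⟩ := Int.eq_ofNat_of_zero_le hn
    rw [zpow_natCast]
    exact pow_mem hz m
  have fac : ∀ g ∈ B, g ≠ 0 → ∃ (n : ℕ) (a : K), Nd B z a ∧ g = z ^ n * a := fun g hg h => by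
    obtain ⟨n, a, h1, h2⟩ := WfDvdMonoid.max_power_factor' (a₀ := (⟨g, hg⟩ : B))
      (fun e => h (congrArg Subtype.val e)) hp.not_isUnit
    exact ⟨n, a, (nd_iff h0 a).2 h1, congrArg Subtype.val h2⟩
  have ex : ∀ x : K, x ≠ 0 → ∃ n, Od B z x n := fun x hx => by
    obtain ⟨s, hs, s0, hsx⟩ := hfr x
    obtain ⟨n, a, ha, e⟩ := fac _ hsx (mul_ne_zero s0 hx)
    obtain ⟨m, b, hb, e'⟩ := fac _ hs s0
    refine ⟨n - m, a, b, ha, hb, ?_⟩
    rw [zpow_sub₀ h0, zpow_natCast, zpow_natCast, div_mul_eq_mul_div, ← e, e',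
      eq_div_iff (pow_ne_zero _ h0)]
    ring
  have le : ∀ {x a b : K} {n m : ℤ}, Od B z x n → a ∈ B → Nd B z b → x * b = z ^ m * a →
      m ≤ n := by
    rintro x a' b' n m ⟨a, b, ha, hb, e⟩ ha' hb' e'
    by_contra hlt
    refine (nmul ha hb').2 ?_
    have : a * b' * z⁻¹ = z ^ (m - n - 1) * (a' * b) := by
      apply mul_left_cancel₀ (zpow_ne_zero n h0)
      have e1 : z ^ n * (z ^ (m - n - 1) * (a' * b)) = z ^ m * a' * b * z⁻¹ := by
        rw [← mul_assoc, ← zpow_add₀ h0, show n + (m - n - 1) = m - 1 by ring, zpow_sub_one₀ h0]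
        ring
      rw [e1, ← e', ← mul_assoc, ← mul_assoc, ← e]
      ring
    rw [this]
    exact mul_mem (zp (by omega)) (mul_mem ha' hb.1)
  classical
  let v : K → ℤ := fun x => if h : x = 0 then 0 else (ex x h).choose
  have vo : ∀ {x : K}, x ≠ 0 → Od B z x (v x) := fun {x} hx => by
    simp only [v, dif_neg hx]
    exact (ex x hx).choose_spec
  have ve : ∀ {x : K} {n : ℤ}, x ≠ 0 → Od B z x n → v x = n := fun {x n} hx h => by
    obtain ⟨a, b, ha, hb, e⟩ := vo hx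
    obtain ⟨a', b', ha', hb', e'⟩ := id h
    exact le_antisymm (le h ha.1 hb e) (le (vo hx) ha'.1 hb' e')
  have vn : ∀ {a : K}, Nd B z a → v a = 0 := fun {a} ha =>
    ve ha.ne ⟨a, 1, ha, none, by simp⟩
  let d : DV K :=
    { v := v
      zero := dif_pos rfl
      mul := fun g h hg hh => by
        obtain ⟨a, b, ha, hb, e⟩ := vo hg
        obtain ⟨a', b', ha', hb', e'⟩ := vo hh
        refine ve (mul_ne_zero hg hh) ⟨_, _, nmul ha ha', nmul hb hb', ?_⟩
        rw [mul_mul_mul_comm, e, e', zpow_add₀ h0, mul_mul_mul_comm]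
      add := fun g h hg hh hs => by
        obtain ⟨a, b, ha, hb, e⟩ := vo hg
        obtain ⟨a', b', ha', hb', e'⟩ := vo hh
        refine le (a := z ^ (v g - min (v g) (v h)) * (a * b') +
          z ^ (v h - min (v g) (v h)) * (a' * b)) (vo hs)
          (add_mem (mul_mem (zp (by omega)) (mul_mem ha.1 hb'.1))
            (mul_mem (zp (by omega)) (mul_mem ha'.1 hb.1))) (nmul hb hb') ?_
        rw [mul_add, ← mul_assoc (z ^ _) (z ^ _), ← mul_assoc (z ^ _) (z ^ _), ← zpow_add₀ h0,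
          ← zpow_add₀ h0, add_sub_cancel, add_sub_cancel, ← mul_assoc (z ^ v h), ← e',
          ← mul_assoc (z ^ v g), ← e]
        ring }
  refine ⟨d, fun g hg => ?_, ve h0 ⟨1, 1, none, none, by simp⟩, fun g hg h1 => ?_, fun x hx => ?_⟩
  · by_cases h : g = 0
    · exact Or.inl h
    · exact Or.inr (le (vo h) hg none (by simp))
  · by_contra hn
    have hd : Nd B z g := ⟨hg, hn⟩
    have h2 : (1 : ℤ) ≤ v g := Or.resolve_left h1 hd.ne
    rw [vn hd] at h2
    omega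
  · by_cases h : x = 0
    · exact ⟨1, one_mem _, (dv_un d).2 ⟨one_ne_zero, d.one⟩, by rw [h, mul_zero]; exact zero_mem _⟩
    obtain ⟨a, b, ha, hb, e⟩ := vo h
    refine ⟨b, hb.1, (dv_un d).2 ⟨hb.ne, vn hb⟩, ?_⟩
    rw [mul_comm, e]
    exact mul_mem (zp (Or.resolve_left hx h)) ha.1

end Pool.Agent.MP_ee8c61_ag.M3B1
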