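import Pool.Agent.MP_ee8c61_ag.M3B1.P0

/-! Derivations of the field of rational functions and charts of a blow-up. -/

namespace Pool.Agent.MP_ee8c61_ag.M3B1

open MvPolynomial Set
open Pool.Agent.MP_96693b_ag.RS (Der)
open M3 (Po KK ip Vl Ov Un)

variable {N : ℕ} {W : Set (Po N)} {w w' f : Po N} {t x : KK N}

theorem ip_inj : Function.Injective (ip N) := IsFractionRing.injective (Po N) (KK N)

theorem ip_ne (h : w ≠ 0) : ip N w ≠ 0 := fun e => h (ip_inj (e.trans (map_zero _).symm))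

theorem frac (x : KK N) : ∃ p q : Po N, q ≠ 0 ∧ ip N q * x = ip N p := by
  obtain ⟨p, q, hq, rfl⟩ := IsFractionRing.div_surjective (A := Po N) x
  have h := nonZeroDivisors.ne_zero hq
  exact ⟨p, q, h, mul_div_cancel₀ _ (ip_ne h)⟩

theorem der_zero {D : Der (KK N)} (h : ∀ l, D (ip N (X l)) = 0) (x : KK N) : D x = 0 := by
  have h1 : ∀ p, D (ip N p) = 0 := fun p => by
    induction p using MvPolynomial.induction_on with
    | C c => exact (congrArg D ((ip N).commutes c)).trans (D.map_algebraMap c)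
    | add p q hp hq => rw [map_add, map_add, hp, hq, add_zero]
    | mul_X p i hp => rw [map_mul, D.leibniz, hp, h, smul_zero, smul_zero, add_zero]
  obtain ⟨p, q, hq, e⟩ := frac x
  have := congrArg D e
  rw [D.leibniz, h1, h1, smul_zero, add_zero, smul_eq_mul] at this
  exact (mul_eq_zero.1 this).resolve_left (ip_ne hq)

theorem der_ext {D D' : Der (KK N)} (h : ∀ l, D (ip N (X l)) = D' (ip N (X l))) : D = D' :=
  Derivation.ext fun x => sub_eq_zero.1
    (der_zero (D := D - D') (fun l => by rw [Derivation.sub_apply, h, sub_self]) x)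

/-- The standard derivations. -/
noncomputable def pd (N : ℕ) : Fin N → Der (KK N) := (exists_pd N).choose

theorem pd_X (i j : Fin N) : pd N i (ip N (X j)) = if i = j then 1 else 0 :=
  (exists_pd N).choose_spec i j

theorem chain (D : Der (KK N)) (x : KK N) : D x = ∑ l, D (ip N (X l)) * pd N l x := by
  have e : ∀ y, (∑ l, D (ip N (X l)) • pd N l) y = ∑ l, D (ip N (X l)) * pd N l y := fun y => by
    rw [MP_96693b_ag.RS.LChart_sum_apply]
    rfl
  rw [← e]
  refine DFunLike.congr_fun (der_ext fun l => ?_) x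
  rw [e]
  simp only [pd_X, mul_ite, mul_one, mul_zero, Finset.sum_ite_eq', Finset.mem_univ, if_true]

theorem pd_comm (i j : Fin N) (x : KK N) : pd N i (pd N j x) = pd N j (pd N i x) :=
  sub_eq_zero.1 (der_zero (D := ⁅pd N i, pd N j⁆) (fun l => by
    rw [Derivation.commutator_apply, pd_X, pd_X]
    split_ifs <;> simp) x)

theorem pd_ip (i : Fin N) (p : Po N) : pd N i (ip N p) = ip N (pderiv i p) := by
  induction p using MvPolynomial.induction_on with
  | C c =>
    rw [pderiv_C, map_zero]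
    exact (congrArg (pd N i) ((ip N).commutes c)).trans ((pd N i).map_algebraMap c)
  | add p q hp hq => simp only [map_add, hp, hq]
  | mul_X p j hp =>
    rw [map_mul, Derivation.leibniz, Derivation.leibniz, hp, pd_X, pderiv_X]
    by_cases h : i = j
    · subst h; simp
    · simp [h, Ne.symm h]

theorem ip_mem_ch (p : Po N) : ip N p ∈ ch W w := Algebra.subset_adjoin (Or.inl ⟨p, rfl⟩)

theorem div_mem_ch (h : w' ∈ W) : ip N w' / ip N w ∈ ch W w :=
  Algebra.subset_adjoin (Or.inr ⟨w', h, rfl⟩)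

theorem ch_le {A : Subalgebra ℂ (KK N)} :
    ch W w ≤ A ↔ (∀ p, ip N p ∈ A) ∧ ∀ v ∈ W, ip N v / ip N w ∈ A := by
  rw [ch, Algebra.adjoin_le_iff, union_subset_iff, range_subset_iff, image_subset_iff]
  rfl

theorem ch_le_cl : ch W w ≤ cl W w t := le_sup_left

theorem inv_mem_cl : t⁻¹ ∈ cl W w t :=
  (le_sup_right : _ ≤ cl W w t) (Algebra.subset_adjoin rfl)

theorem cl_le {A : Subalgebra ℂ (KK N)} : cl W w t ≤ A ↔ ch W w ≤ A ∧ t⁻¹ ∈ A := by
  rw [cl, sup_le_iff, Algebra.adjoin_le_iff, singleton_subset_iff]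
  rfl

theorem range_eq : (ip N).range = Algebra.adjoin ℂ (range fun l => ip N (X l)) := by
  rw [Algebra.adjoin_range_eq_range_aeval]
  congr 1
  exact MvPolynomial.algHom_ext fun l => (aeval_X (fun l => ip N (X l)) l).symm

theorem ch_fg (h : W.Finite) : (ch W w).FG := by
  refine Subalgebra.fg_def.2 ⟨(range fun l => ip N (X l)) ∪ (fun v => ip N v / ip N w) '' W,
    (finite_range _).union (h.image _), ?_⟩
  rw [ch, Algebra.adjoin_union, Algebra.adjoin_union, ← range_eq, ← AlgHom.coe_range,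
    Algebra.adjoin_eq]

theorem cl_fg (h : W.Finite) : (cl W w t).FG :=
  (ch_fg h).sup (Subalgebra.fg_def.2 ⟨_, finite_singleton _, rfl⟩)

/-- Elements of the localised chart have a power of `t` as a denominator. -/
theorem exists_pow_cl (ht : t ∈ ch W w) (h0 : t ≠ 0) (hx : x ∈ cl W w t) :
    ∃ e : ℕ, t ^ e * x ∈ ch W w := by
  let A : Subalgebra ℂ (KK N) :=
    { carrier := {x | ∃ e : ℕ, t ^ e * x ∈ ch W w}
      mul_mem' := fun {a b} ⟨e, he⟩ ⟨e', he'⟩ =>
        ⟨e + e', by rw [pow_add, mul_mul_mul_comm]; exact mul_mem he he'⟩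
      add_mem' := fun {a b} ⟨e, he⟩ ⟨e', he'⟩ => ⟨e + e', by
        have : t ^ (e + e') * (a + b) = t ^ e' * (t ^ e * a) + t ^ e * (t ^ e' * b) := by ring
        rw [this]
        exact add_mem (mul_mem (pow_mem ht _) he) (mul_mem (pow_mem ht _) he')⟩
      algebraMap_mem' := fun c => ⟨0, by simp⟩ }
  exact (cl_le (A := A)).2 ⟨fun y hy => ⟨0, by simpa using hy⟩,
    1, by rw [pow_one, mul_inv_cancel₀ h0]; exact one_mem _⟩ hx

/-- Change of charts. -/
theorem ch_shift (hw' : w' ∈ W) (h0 : w' ≠ 0) (hx : x ∈ ch W w') :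
    ∃ e₀ : ℕ, ∀ e, e₀ ≤ e → (ip N w' / ip N w) ^ e * x ∈ ch W w := by
  have hs : ip N w' / ip N w ∈ ch W w := div_mem_ch hw'
  have key : ∃ e : ℕ, (ip N w' / ip N w) ^ e * x ∈ ch W w := by
    let A : Subalgebra ℂ (KK N) :=
      { carrier := {x | ∃ e : ℕ, (ip N w' / ip N w) ^ e * x ∈ ch W w}
        mul_mem' := fun {a b} ⟨e, he⟩ ⟨e', he'⟩ =>
          ⟨e + e', by rw [pow_add, mul_mul_mul_comm]; exact mul_mem he he'⟩
        add_mem' := fun {a b} ⟨e, he⟩ ⟨e', he'⟩ => ⟨e + e', by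
          rw [mul_add, pow_add, mul_assoc, mul_assoc, mul_left_comm]
          exact add_mem (mul_mem (pow_mem hs _) he) (mul_mem (pow_mem hs _) he')⟩
        algebraMap_mem' := fun c => ⟨0, by simp⟩ }
    refine (ch_le (A := A)).2 ⟨fun p => ⟨0, by simpa using ip_mem_ch p⟩, fun v hv => ⟨1, ?_⟩⟩ hx
    rw [pow_one, mul_comm, div_mul_div_cancel₀ (ip_ne h0)]
    exact div_mem_ch hv
  obtain ⟨e₀, h⟩ := key
  refine ⟨e₀, fun e he => ?_⟩
  obtain ⟨k, rfl⟩ := Nat.exists_eq_add_of_le' he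
  rw [pow_add, mul_assoc]
  exact mul_mem (pow_mem hs _) h

/-- The generator of the chart divides a power of `f`. -/
theorem dv_of_rad {G : Set (Po N)} {g : Po N} {B : Subalgebra ℂ (KK N)} (hB : ∀ p, ip N p ∈ B)
    (hf : f ∈ (Ideal.span G).radical) (h0 : g ≠ 0) (h : ∀ g' ∈ G, ip N g' / ip N g ∈ B) :
    Dv B f (ip N g) := by
  obtain ⟨m, hm⟩ := hf
  have key : ∀ p ∈ Ideal.span G, ip N p / ip N g ∈ B := fun p hp => by
    induction hp using Submodule.span_induction with
    | mem y hy => exact h y hy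
    | zero => simp
    | add y y' _ _ hy hy' => rw [map_add, add_div]; exact add_mem hy hy'
    | smul r y _ hy => rw [smul_eq_mul, map_mul, mul_div_assoc]; exact mul_mem (hB r) hy
  exact ⟨hB g, m, _, key _ hm, by rw [map_pow, mul_div_cancel₀ _ (ip_ne h0)]⟩

end Pool.Agent.MP_ee8c61_ag.M3B1
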