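import Pool.Agent.MP_ee8c61_ag.M3B1.Spec

namespace Pool.Agent.MP_ee8c61_ag.M3B1

open Set Pool.Agent.MP_96693b_ag.RS

theorem rowTW : RowTW := by
  intro K _ _ n M M' B h
  induction h with
  | refl M B =>
    exact ⟨{1}, 0, finite_singleton _, by simp [Submodule.one_le.1 le_rfl], by simp,
      fun b _ u _ _ _ => ⟨1, rfl, by simp [Loc.ev_one]⟩⟩
  | @step M M₁ M' B C h hC hCB _ ih =>
    obtain ⟨W, d, hW, hWd, hU, hb⟩ := ih
    obtain ⟨G, hG⟩ := h.ex
    obtain ⟨d0, h1, h2⟩ := hG.hom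
    have hle : Submodule.span ℂ M₁.U ≤ Submodule.span ℂ M.U ^ (1 + d0) := by
      rw [Submodule.span_le, hG.eq]
      rintro _ ⟨u, hu, g, hg, rfl⟩
      rw [pow_add, pow_one]
      exact Submodule.mul_mem_mul (Submodule.subset_span hu) (h1 g hg)
    refine ⟨image2 (· * ·) G W, d0 + (1 + d0) * d, hG.fin.image2 _ hW, ?_, ?_, ?_⟩
    · rintro _ ⟨g, hg, w, hw, rfl⟩
      rw [pow_add, pow_mul]
      exact Submodule.mul_mem_mul (h1 g hg) (pow_le_pow_left' hle d (hWd w hw))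
    · rw [hU, hG.eq]
      exact image2_assoc mul_assoc
    · intro b hbB u hu hu0 hub
      have hbC : b ∉ C := fun hc => hbB (hCB hc)
      obtain ⟨b', rfl⟩ := h.exists_off hC.closed hbC
      have hl := h.loc_off hC.closed hbC
      have h3 := (h2 _ u hu hu0 hub).trans ((Model.span_vanK_eq_one hC.closed).2 hbC)
      have h4 : ∀ g ∈ G, g / u ^ d0 ∈ (M.loc (h.π b')).O := fun g hg =>
        Loc.mem_one.1 (h3 ▸ Loc.subset_span ⟨g, hg, rfl⟩)
      have h5 : ∃ g ∈ G, (M.loc (h.π b')).ev (g / u ^ d0) ≠ 0 := by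
        by_contra! h6
        refine Loc.m_ne_one (L := M.loc (h.π b')) (le_antisymm Loc.m_le_one ?_)
        rw [← h3]
        refine Loc.span_le.2 ?_
        rintro _ ⟨g, hg, rfl⟩
        exact ⟨h4 g hg, h6 g hg⟩
      obtain ⟨g, hg, h6⟩ := h5
      have hg0 : g ≠ 0 := by
        rintro rfl
        exact h6 (by rw [zero_div, Loc.ev_zero])
      have h7 : chA M₁.U (u * g) ≤ (M₁.loc b').O := by
        rw [hl, hG.eq]
        refine chA_mul_le hub fun g' hg' => ?_
        have : g' / g = g' / u ^ d0 * (g / u ^ d0)⁻¹ := by field_simp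
        rw [this]
        exact mul_mem (h4 g' hg') ((M.loc _).inv_mem _ (h4 g hg) h6)
      obtain ⟨w, hw, h8⟩ := hb b' hbB (u * g) (hG.eq ▸ mem_image2_of_mem hu hg)
        (mul_ne_zero hu0 hg0) h7
      rw [hl] at h8
      refine ⟨g * w, mem_image2_of_mem hg hw, ?_⟩
      have : g * w / u ^ (d0 + (1 + d0) * d) = (g / u ^ d0) ^ (d + 1) * (w / (u * g) ^ d) := by
        simp only [div_pow, mul_pow, ← pow_mul, pow_add, add_mul, mul_add, one_mul, mul_one, pow_one]
        field_simp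
      rw [this, (M.loc _).ev_mul _ (pow_mem (h4 g hg) _) _ (Loc.mem_of_ev h8), Loc.ev_pow (h4 g hg)]
      exact mul_ne_zero (pow_ne_zero _ h6) h8

end Pool.Agent.MP_ee8c61_ag.M3B1
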