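import Pool.Agent.MP_ee8c61_ag.M3B1.Spec

/-! Row ET: local coordinates with dual derivations give an etale map to affine space. -/

namespace Pool.Agent.MP_ee8c61_ag.M3B1

open MvPolynomial Set IsLocalRing

namespace ET

/-- A derivation extends along a formally etale map. -/
theorem der_ext {A T M : Type} [CommRing A] [CommRing T] [Algebra ℂ A] [Algebra ℂ T]
    [Algebra A T] [IsScalarTower ℂ A T] [Algebra.FormallyEtale A T] [AddCommGroup M]
    [Module ℂ M] [Module A M] [Module T M] [IsScalarTower A T M] [IsScalarTower ℂ A M]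
    [IsScalarTower ℂ T M] (d : Derivation ℂ A M) :
    ∃ d' : Derivation ℂ T M, ∀ a, d' (algebraMap A T a) = d a := by
  have h := KaehlerDifferential.isBaseChange_of_formallyEtale ℂ A T
  refine ⟨(h.lift d.liftKaehlerDifferential).compDer (KaehlerDifferential.D ℂ T), fun a => ?_⟩
  change h.lift d.liftKaehlerDifferential (KaehlerDifferential.D ℂ T (algebraMap A T a)) = d a
  rw [← KaehlerDifferential.map_D ℂ ℂ A T, h.lift_eq, Derivation.liftKaehlerDifferential_comp_D]

/-- A derivation is determined by its values on the base of a formally unramified map. -/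
theorem der_uniq {A T M : Type} [CommRing A] [CommRing T] [Algebra ℂ A] [Algebra ℂ T]
    [Algebra A T] [Algebra.FormallyUnramified A T] [AddCommGroup M]
    [Module ℂ M] [Module A M] [Module T M] [IsScalarTower A T M]
    (d₁ d₂ : Derivation ℂ T M) (h : ∀ a, d₁ (algebraMap A T a) = d₂ (algebraMap A T a)) (t : T) :
    d₁ t = d₂ t := by
  have h0 : ∀ a, (d₁ - d₂) (algebraMap A T a) = 0 := fun a => by
    rw [Derivation.sub_apply, h, sub_self]
  let L : T →ₗ[A] M :=
    { toFun := fun x => (d₁ - d₂) x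
      map_add' := fun x y => map_add _ x y
      map_smul' := fun a x => by
        rw [Algebra.smul_def, Derivation.leibniz, h0, smul_zero, add_zero, RingHom.id_apply,
          algebraMap_smul] }
  let δ : Derivation A T M := Derivation.mk' L fun x y => (d₁ - d₂).leibniz x y
  have h1 : δ t = 0 := by
    rw [← Derivation.liftKaehlerDifferential_comp_D δ t,
      Subsingleton.elim (KaehlerDifferential.D A T t) 0, map_zero]
  have h2 : (d₁ - d₂) t = 0 := h1
  rwa [Derivation.sub_apply, sub_eq_zero] at h2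

/-- The Euler identity modulo the next power of the ideal. -/
theorem euler {T : Type} [CommRing T] [Algebra ℂ T] {n : ℕ} (x : Fin n → T)
    (E : Derivation ℂ T T) (hE : ∀ a, E a ∈ Ideal.span (range x)) (hx : ∀ l, E (x l) = x l)
    (k : ℕ) : ∀ a ∈ Ideal.span (range x) ^ k,
      E a - (k : T) * a ∈ Ideal.span (range x) ^ (k + 1) := by
  have h1 : ∀ u ∈ Ideal.span (range x), E u - u ∈ Ideal.span (range x) ^ 2 := by
    intro u hu
    induction hu using Submodule.span_induction with
    | mem u hu => obtain ⟨l, rfl⟩ := hu; rw [hx, sub_self]; exact zero_mem _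
    | zero => simp
    | add u v _ _ hu hv =>
      have e : E (u + v) - (u + v) = (E u - u) + (E v - v) := by rw [map_add]; ring
      rw [e]; exact add_mem hu hv
    | smul b u hu' hu =>
      have e : E (b • u) - b • u = b * (E u - u) + u * E b := by
        rw [smul_eq_mul, Derivation.leibniz, smul_eq_mul, smul_eq_mul]; ring
      rw [e]
      refine add_mem (Ideal.mul_mem_left _ _ hu) ?_
      rw [pow_two]; exact Ideal.mul_mem_mul hu' (hE b)
  induction k with
  | zero => intro a _; simpa using hE a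
  | succ k ih =>
    intro a ha
    rw [pow_succ'] at ha
    refine Submodule.mul_induction_on ha (fun u hu v hv => ?_) (fun u v hu hv => ?_)
    · have e : E (u * v) - ((k + 1 : ℕ) : T) * (u * v) =
          u * (E v - (k : T) * v) + (E u - u) * v := by
        rw [Derivation.leibniz, smul_eq_mul, smul_eq_mul]; push_cast; ring
      rw [e]
      refine add_mem ?_ ?_
      · rw [pow_succ' _ (k + 1)]; exact Ideal.mul_mem_mul hu (ih v hv)
      · rw [show k + 1 + 1 = 2 + k by ring, pow_add]; exact Ideal.mul_mem_mul (h1 u hu) hv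
    · have e : E (u + v) - ((k + 1 : ℕ) : T) * (u + v) =
          (E u - ((k + 1 : ℕ) : T) * u) + (E v - ((k + 1 : ℕ) : T) * v) := by
        rw [map_add]; ring
      rw [e]; exact add_mem hu hv

/-- A proper ideal stable under derivations dual to generators of the maximal ideal is zero. -/
theorem stable_bot {T : Type} [CommRing T] [Algebra ℂ T] [IsNoetherianRing T] [IsLocalRing T]
    {n : ℕ} (x : Fin n → T) (D : Fin n → Derivation ℂ T T)
    (hD : ∀ l m, D l (x m) = if l = m then 1 else 0)
    (hm : maximalIdeal T = Ideal.span (range x)) (J : Ideal T) (hJ : J ≠ ⊤)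
    (hs : ∀ l, ∀ a ∈ J, D l a ∈ J) : J = ⊥ := by
  let E : Derivation ℂ T T := ∑ l, x l • D l
  have hEa : ∀ a, E a = ∑ l, x l * D l a := fun a => by
    have e := congrFun (map_sum Derivation.coeFnAddMonoidHom (fun l => x l • D l) Finset.univ) a
    rw [Finset.sum_apply] at e
    exact e
  have hxm : ∀ l, x l ∈ Ideal.span (range x) := fun l => Ideal.subset_span ⟨l, rfl⟩
  have hE : ∀ a, E a ∈ Ideal.span (range x) := fun a => by
    rw [hEa]; exact Ideal.sum_mem _ fun l _ => Ideal.mul_mem_right _ _ (hxm l)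
  have hx : ∀ l, E (x l) = x l := fun l => by
    rw [hEa]; simp [hD]
  have key : ∀ k : ℕ, J ≤ Ideal.span (range x) ^ (k + 1) := by
    intro k
    induction k with
    | zero => rw [zero_add, pow_one, ← hm]; exact le_maximalIdeal hJ
    | succ k ih =>
      intro a ha
      have h1 := euler x E hE hx (k + 1) a (ih ha)
      have h2 : E a ∈ Ideal.span (range x) ^ (k + 1 + 1) := by
        rw [hEa, pow_succ' _ (k + 1)]
        exact Ideal.sum_mem _ fun l _ => Ideal.mul_mem_mul (hxm l) (ih (hs l a ha))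
      have h3 : ((k + 1 : ℕ) : T) * a ∈ Ideal.span (range x) ^ (k + 1 + 1) := by
        have := sub_mem h2 h1
        rwa [sub_sub_cancel] at this
      have h4 : algebraMap ℂ T (((k + 1 : ℕ) : ℂ)⁻¹) * ((k + 1 : ℕ) : T) = 1 := by
        rw [← map_natCast (algebraMap ℂ T), ← map_mul, inv_mul_cancel₀, map_one]
        exact Nat.cast_ne_zero.2 (Nat.succ_ne_zero k)
      have h5 := Ideal.mul_mem_left _ (algebraMap ℂ T (((k + 1 : ℕ) : ℂ)⁻¹)) h3
      rwa [← mul_assoc, h4, one_mul] at h5
  have hne : Ideal.span (range x) ≠ ⊤ := by rw [← hm]; exact (maximalIdeal.isMaximal T).ne_top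
  rw [eq_bot_iff, ← Ideal.iInf_pow_eq_bot_of_isLocalRing _ hne]
  exact le_iInf fun k => (key k).trans (Ideal.pow_le_pow_right (Nat.le_succ k))

theorem unr_loc {T R : Type} [CommRing T] [CommRing R] [IsLocalRing R] [Algebra T R]
    [Algebra.EssFiniteType T R] [Algebra.FormallyUnramified T (ResidueField R)]
    (H : maximalIdeal R ≤ ((maximalIdeal R).comap (algebraMap T R)).map (algebraMap T R)) :
    Algebra.FormallyUnramified T R := by
  constructor
  rw [← subsingleton_tensorProduct (R := R)]
  refine subsingleton_of_forall_eq 0 fun x ↦ ?_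
  obtain ⟨x, rfl⟩ := (KaehlerDifferential.exact_kerCotangentToTensor_mapBaseChange T R
    (ResidueField R) Ideal.Quotient.mk_surjective x).mp (Subsingleton.elim _ _)
  obtain ⟨⟨x, hx⟩, rfl⟩ := Ideal.toCotangent_surjective _ x
  simp only [KaehlerDifferential.kerCotangentToTensor_toCotangent]
  replace hx : x ∈ ((maximalIdeal R).comap (algebraMap T R)).map (algebraMap T R) :=
    H (by simpa using hx)
  induction hx using Submodule.span_induction with
  | zero => simp
  | mem x h => obtain ⟨x, hx, rfl⟩ := h; simp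
  | add x y hx hy _ _ => simp [*, TensorProduct.tmul_add]
  | smul a x hx _ =>
    have : residue R x = 0 := by
      rw [residue_eq_zero_iff]; exact Ideal.map_comap_le hx
    simp [*, TensorProduct.tmul_add, TensorProduct.smul_tmul', ← Algebra.algebraMap_eq_smul_one]

theorem sub_mem_span {n : ℕ} (c : Fin n → ℂ) (p : MvPolynomial (Fin n) ℂ) :
    p - C (aeval c p) ∈ Ideal.span (range fun l => (X l - C (c l) : MvPolynomial (Fin n) ℂ)) := by
  induction p using MvPolynomial.induction_on with
  | C a => simp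
  | add p q hp hq =>
    have e : p + q - C (aeval c (p + q)) = (p - C (aeval c p)) + (q - C (aeval c q)) := by
      rw [map_add, map_add]; ring
    rw [e]; exact add_mem hp hq
  | mul_X p l hp =>
    have e : p * X l - C (aeval c (p * X l)) =
        (p - C (aeval c p)) * X l + C (aeval c p) * (X l - C (c l)) := by
      rw [map_mul, aeval_X, map_mul]; ring
    rw [e]
    exact add_mem (Ideal.mul_mem_right _ _ hp)
      (Ideal.mul_mem_left _ _ (Ideal.subset_span ⟨l, rfl⟩))

theorem chain {n : ℕ} {B : Type} [CommRing B] [Algebra ℂ B] (z : Fin n → B)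
    (D : Derivation ℂ B B) (l : Fin n) (hD : ∀ m, D (z m) = if l = m then 1 else 0)
    (p : MvPolynomial (Fin n) ℂ) : D (aeval z p) = aeval z (pderiv l p) := by
  induction p using MvPolynomial.induction_on with
  | C a => simp
  | add p q hp hq => simp only [map_add, hp, hq]
  | mul_X p m hp =>
    rw [map_mul, aeval_X, Derivation.leibniz, Derivation.leibniz, hp, hD, pderiv_X]
    by_cases h : l = m
    · subst h; simp
    · simp [h]

theorem core {n : ℕ} {T R : Type} [CommRing T] [CommRing R] [Algebra ℂ T] [Algebra ℂ R]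
    [Algebra (MvPolynomial (Fin n) ℂ) T] [Algebra (MvPolynomial (Fin n) ℂ) R]
    [IsScalarTower ℂ (MvPolynomial (Fin n) ℂ) T] [IsScalarTower ℂ (MvPolynomial (Fin n) ℂ) R]
    [IsNoetherianRing T] [IsLocalRing T] [Nontrivial R]
    [Algebra.FormallyEtale (MvPolynomial (Fin n) ℂ) T] (c : Fin n → ℂ)
    (hm : maximalIdeal T =
      Ideal.span (range fun l => algebraMap (MvPolynomial (Fin n) ℂ) T (X l - C (c l))))
    (θ : T →ₐ[MvPolynomial (Fin n) ℂ] R) (hθ : Function.Surjective θ)
    (D : Fin n → Derivation ℂ R R)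
    (hD : ∀ l p, D l (algebraMap (MvPolynomial (Fin n) ℂ) R p) =
      algebraMap (MvPolynomial (Fin n) ℂ) R (pderiv l p)) :
    Algebra.FormallyEtale (MvPolynomial (Fin n) ℂ) R := by
  have h1 : ∀ l : Fin n, ∃ d : Derivation ℂ T T, ∀ p,
      d (algebraMap (MvPolynomial (Fin n) ℂ) T p) =
        algebraMap (MvPolynomial (Fin n) ℂ) T (pderiv l p) := fun l =>
    der_ext ((Algebra.linearMap (MvPolynomial (Fin n) ℂ) T).compDer (pderiv l))
  choose d hd using h1
  let : Algebra T R := θ.toRingHom.toAlgebra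
  have : IsScalarTower (MvPolynomial (Fin n) ℂ) T R :=
    IsScalarTower.of_algebraMap_eq fun p => (θ.commutes p).symm
  have : IsScalarTower ℂ T R := IsScalarTower.of_algebraMap_eq fun a => by
    rw [IsScalarTower.algebraMap_apply ℂ (MvPolynomial (Fin n) ℂ) T,
      IsScalarTower.algebraMap_apply ℂ (MvPolynomial (Fin n) ℂ) R]
    exact (θ.commutes _).symm
  have h2 : ∀ l t, θ (d l t) = D l (θ t) := fun l t => by
    refine der_uniq (A := MvPolynomial (Fin n) ℂ) ((Algebra.linearMap T R).compDer (d l))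
      ((D l).compAlgebraMap T) (fun p => ?_) t
    change θ (d l (algebraMap _ T p)) = D l (θ (algebraMap _ T p))
    rw [hd, θ.commutes, θ.commutes, hD]
  have h3 : RingHom.ker θ = ⊥ := by
    refine stable_bot _ d (fun l m => ?_) hm _ (RingHom.ker_ne_top θ) (fun l a ha => ?_)
    · rw [hd, map_sub, pderiv_C, sub_zero, pderiv_X]
      by_cases h : l = m
      · subst h; simp
      · simp [h]
    · rw [RingHom.mem_ker] at ha ⊢
      rw [h2, ha, map_zero]
  exact Algebra.FormallyEtale.of_equiv
    (AlgEquiv.ofBijective θ ⟨(RingHom.injective_iff_ker_eq_bot θ).2 h3, hθ⟩)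

theorem main {n : ℕ} {B : Type} [CommRing B] [Algebra ℂ B] [Algebra.FiniteType ℂ B]
    [Algebra (MvPolynomial (Fin n) ℂ) B] [IsScalarTower ℂ (MvPolynomial (Fin n) ℂ) B]
    (D : Fin n → Derivation ℂ B B) (φ : B →ₐ[ℂ] ℂ) (c : Fin n → ℂ)
    (hc : ∀ p, φ (algebraMap (MvPolynomial (Fin n) ℂ) B p) = aeval c p)
    (hD : ∀ l p, D l (algebraMap (MvPolynomial (Fin n) ℂ) B p) =
      algebraMap (MvPolynomial (Fin n) ℂ) B (pderiv l p))
    (hm : ∀ x, φ x = 0 → ∃ s, φ s ≠ 0 ∧ s * x ∈
      Ideal.span (range fun l => algebraMap (MvPolynomial (Fin n) ℂ) B (X l - C (c l)))) :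
    ∃ t : B, φ t ≠ 0 ∧ Algebra.Etale (MvPolynomial (Fin n) ℂ) (Localization.Away t) := by
  let q : Ideal B := RingHom.ker φ
  have hq : q.IsPrime := RingHom.ker_isPrime φ
  have hft : Algebra.FiniteType (MvPolynomial (Fin n) ℂ) B :=
    Algebra.FiniteType.of_restrictScalars_finiteType ℂ _ _
  have hfp : Algebra.FinitePresentation (MvPolynomial (Fin n) ℂ) B :=
    Algebra.FinitePresentation.of_finiteType.1 hft
  let R := Localization.AtPrime q
  have hunit : ∀ b : B, IsUnit (algebraMap B R b) ↔ φ b ≠ 0 := fun b =>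
    IsLocalization.AtPrime.isUnit_to_map_iff R q b
  have hmax : ∀ b : B, algebraMap B R b ∈ maximalIdeal R ↔ φ b = 0 := fun b =>
    IsLocalization.AtPrime.to_map_mem_maximal_iff R q b
  have hPm : ∀ p, algebraMap (MvPolynomial (Fin n) ℂ) R p ∈ maximalIdeal R ↔ aeval c p = 0 :=
    fun p => by rw [IsScalarTower.algebraMap_apply _ B R, hmax, hc]
  -- unramified
  have hres : Algebra.FormallyUnramified (MvPolynomial (Fin n) ℂ) (ResidueField R) := by
    refine Algebra.FormallyUnramified.of_surjective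
      (Algebra.ofId (MvPolynomial (Fin n) ℂ) (ResidueField R)) fun r => ?_
    obtain ⟨r, rfl⟩ := residue_surjective r
    obtain ⟨⟨b, s⟩, hr⟩ := IsLocalization.surj q.primeCompl r
    have hs : φ s ≠ 0 := s.2
    refine ⟨C (φ b / φ s), ?_⟩
    rw [Algebra.ofId_apply, IsScalarTower.algebraMap_apply _ R (ResidueField R),
      ResidueField.algebraMap_eq, ← sub_eq_zero, ← map_sub, residue_eq_zero_iff,
      ← Ideal.mul_unit_mem_iff_mem _ ((hunit s).2 hs), sub_mul, hr,
      IsScalarTower.algebraMap_apply _ B R, ← map_mul, ← map_sub, hmax, map_sub, map_mul, hc]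
    simp [hs]
  have hess : Algebra.EssFiniteType (MvPolynomial (Fin n) ℂ) R := inferInstance
  have hun : Algebra.IsUnramifiedAt (MvPolynomial (Fin n) ℂ) q := by
    refine unr_loc (R := R) ?_
    rw [← Localization.AtPrime.map_eq_maximalIdeal, Ideal.map_le_iff_le_comap]
    intro x hx
    obtain ⟨s, hs, hsx⟩ := hm x hx
    rw [Ideal.mem_comap, ← Ideal.unit_mul_mem_iff_mem _ ((hunit s).2 hs), ← map_mul,
      ← Ideal.mem_comap]
    refine (Ideal.span_le.2 ?_ : _ ≤ _) hsx
    rintro _ ⟨l, rfl⟩
    rw [SetLike.mem_coe, Ideal.mem_comap, ← IsScalarTower.algebraMap_apply]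
    refine Ideal.mem_map_of_mem _ ?_
    rw [Ideal.mem_comap, Localization.AtPrime.map_eq_maximalIdeal, hPm]
    simp
  obtain ⟨f, hf, S, ψ, hψ⟩ := Algebra.IsUnramifiedAt.exists_hasStandardEtaleSurjectionOn
    (R := MvPolynomial (Fin n) ℂ) q
  have hu : IsUnit (IsScalarTower.toAlgHom (MvPolynomial (Fin n) ℂ) B R f) := (hunit f).2 hf
  let χ : Localization.Away f →ₐ[MvPolynomial (Fin n) ℂ] R := IsLocalization.Away.liftAlgHom f hu
  have hχ : ∀ a : B, χ (algebraMap B _ a) = algebraMap B R a := fun a => by simp [χ]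
  let θ := χ.comp ψ
  have hθ : ∀ b : B, ∃ a, θ a = algebraMap B R b := fun b => by
    obtain ⟨a, ha⟩ := hψ (algebraMap B _ b)
    exact ⟨a, by rw [← hχ, ← ha]; rfl⟩
  let q' : Ideal S.Ring := (maximalIdeal R).comap θ
  have hq' : q'.IsPrime := Ideal.comap_isPrime _ _
  let T := Localization.AtPrime q'
  have hu' : ∀ y : q'.primeCompl, IsUnit (θ y) := fun y => notMem_maximalIdeal.1 y.2
  let θ' : T →ₐ[MvPolynomial (Fin n) ℂ] R := IsLocalization.liftAlgHom hu'
  have hθ' : ∀ a, θ' (algebraMap S.Ring T a) = θ a := fun a => by simp [θ']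
  have hsurj : Function.Surjective θ' := by
    intro r
    obtain ⟨⟨b, s⟩, hr⟩ := IsLocalization.surj q.primeCompl r
    obtain ⟨a, ha⟩ := hθ b
    obtain ⟨a', ha'⟩ := hθ s
    have hs : IsUnit (algebraMap B R s) := (hunit s).2 s.2
    have ha'' : a' ∈ q'.primeCompl := by
      change ¬ θ a' ∈ maximalIdeal R
      rw [ha']; exact notMem_maximalIdeal.2 hs
    refine ⟨IsLocalization.mk' T a ⟨a', ha''⟩, hs.mul_left_injective ?_⟩
    change _ * _ = _ * _
    rw [hr, ← ha, ← ha', ← hθ', ← map_mul, ← hθ']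
    exact congrArg θ' (IsLocalization.mk'_spec T a ⟨a', ha''⟩)
  have hnS : IsNoetherianRing S.Ring :=
    Algebra.FiniteType.isNoetherianRing (MvPolynomial (Fin n) ℂ) _
  have hnT : IsNoetherianRing T := IsLocalization.isNoetherianRing q'.primeCompl T hnS
  have hST : Algebra.FormallyEtale S.Ring T := .of_isLocalization q'.primeCompl
  have hT : Algebra.FormallyEtale (MvPolynomial (Fin n) ℂ) T := .comp _ S.Ring _
  have hmT : maximalIdeal T =
      Ideal.span (range fun l => algebraMap (MvPolynomial (Fin n) ℂ) T (X l - C (c l))) := by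
    let p : Ideal (MvPolynomial (Fin n) ℂ) := q'.under _
    have hp : ∀ a, a ∈ p ↔ aeval c a = 0 := fun a => by
      rw [← hPm, ← θ.commutes]; rfl
    let := Localization.AtPrime.algebraOfLiesOver p q'
    have hu2 : Algebra.IsUnramifiedAt (MvPolynomial (Fin n) ℂ) q' :=
      (inferInstance : Algebra.FormallyUnramified (MvPolynomial (Fin n) ℂ) T)
    have h := ((Algebra.isUnramifiedAt_iff_map_eq _ p q').1 hu2).2
    have hp' : p = Ideal.span (range fun l => (X l - C (c l) : MvPolynomial (Fin n) ℂ)) := by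
      refine le_antisymm (fun a ha => ?_) (Ideal.span_le.2 ?_)
      · have h1 := sub_mem_span c a
        rwa [(hp a).1 ha, map_zero, sub_zero] at h1
      · rintro _ ⟨l, rfl⟩
        rw [SetLike.mem_coe, hp]; simp
    rw [← h, hp', Ideal.map_span, ← range_comp]; rfl
  have hBR : Algebra.FormallyEtale B R := .of_isLocalization q.primeCompl
  have h1 : ∀ l : Fin n, ∃ d : Derivation ℂ R R, ∀ b, d (algebraMap B R b) =
      algebraMap B R (D l b) := fun l => der_ext ((Algebra.linearMap B R).compDer (D l))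
  choose d hd using h1
  let : Algebra ℂ T := ((algebraMap (MvPolynomial (Fin n) ℂ) T).comp C).toAlgebra
  have : IsScalarTower ℂ (MvPolynomial (Fin n) ℂ) T := IsScalarTower.of_algebraMap_eq fun _ => rfl
  have het : Algebra.IsEtaleAt (MvPolynomial (Fin n) ℂ) q :=
    core c hmT θ' hsurj d fun l p => by
      rw [IsScalarTower.algebraMap_apply _ B R, hd, hD, ← IsScalarTower.algebraMap_apply]
  exact Algebra.exists_etale_of_isEtaleAt (R := MvPolynomial (Fin n) ℂ) q

end ET

theorem rowET : RowET := by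
  intro n B _ _ _ z D φ hD hm
  let : Algebra (MvPolynomial (Fin n) ℂ) B := (aeval (R := ℂ) z).toRingHom.toAlgebra
  have ha : ∀ p, algebraMap (MvPolynomial (Fin n) ℂ) B p = aeval z p := fun _ => rfl
  have : IsScalarTower ℂ (MvPolynomial (Fin n) ℂ) B :=
    IsScalarTower.of_algebraMap_eq fun a => ((aeval (R := ℂ) z).commutes a).symm
  obtain ⟨t, ht, h⟩ := ET.main D φ (fun l => φ (z l)) (fun p => by rw [ha, comp_aeval_apply])
    (fun l p => by rw [ha, ha, ET.chain z (D l) l (hD l)]) (fun x hx => by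
      simpa only [ha, map_sub, aeval_X, aeval_C] using hm x hx)
  refine ⟨t, ht, ?_⟩
  have e := RingHom.etale_algebraMap.2 h
  rwa [IsScalarTower.algebraMap_eq _ B] at e

end Pool.Agent.MP_ee8c61_ag.M3B1
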