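import Pool.Agent.MP_ee8c61_ag.M3B1.Basic

/-! The system of charts and its divisors. -/

namespace Pool.Agent.MP_ee8c61_ag.M3B1

open MvPolynomial Set
open Pool.Agent.MP_96693b_ag.RS (Der)
open M3 (Po KK ip Vl Ov Un DV Lc)

section val

variable {K : Type} [Field K] {d d' : DV K} {x y z z' : K}

theorem un_iff : Un d.O x ↔ x ≠ 0 ∧ d.v x = 0 := by
  refine and_congr_right fun h0 => ?_
  rw [DV.mem_O, DV.mem_O, DV.mem_F, DV.mem_F, d.inv]
  simp only [h0, inv_eq_zero, false_or]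
  omega

theorem v_nonneg (h : x ∈ d.O) : 0 ≤ d.v x := by
  rcases h with rfl | h
  exacts [d.zero.ge, h]

theorem v_zpow (d : DV K) (h : z ≠ 0) (n : ℤ) : d.v (z ^ n) = n * d.v z := by
  induction n using Int.induction_on with
  | zero => simp [d.one]
  | succ n ih => rw [zpow_add_one₀ h, d.mul _ _ (zpow_ne_zero _ h) h, ih]; ring
  | pred n ih =>
    rw [zpow_sub_one₀ h, d.mul _ _ (zpow_ne_zero _ h) (inv_ne_zero h), ih, d.inv]; ring

theorem v_prod (d : DV K) {ι : Type} (s : Finset ι) (F : ι → K) (h : ∀ i ∈ s, F i ≠ 0) :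
    d.v (∏ i ∈ s, F i) = ∑ i ∈ s, d.v (F i) := by
  classical
  induction s using Finset.induction_on with
  | empty => simp [d.one]
  | insert i s hi ih =>
    have h' := fun j hj => h j (Finset.mem_insert_of_mem hj)
    rw [Finset.prod_insert hi, Finset.sum_insert hi, d.mul _ _ (h i (Finset.mem_insert_self _ _))
      (Finset.prod_ne_zero_iff.2 h'), ih h']

theorem ne_of_v (h : d.v z = 1) : z ≠ 0 := fun e => by
  rw [e, d.zero] at h
  exact zero_ne_one h

theorem un_div (h : d.v z = 1) (hx : x ≠ 0) : Un d.O (x * z ^ (-d.v x)) :=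
  un_iff.2 ⟨mul_ne_zero hx (zpow_ne_zero _ (ne_of_v h)), by
    rw [d.mul _ _ hx (zpow_ne_zero _ (ne_of_v h)), v_zpow d (ne_of_v h), h]; ring⟩

theorem dv_eq (h : d.v z = 1) (h' : d'.v z' = 1) (e : d.O = d'.O) : d = d' := by
  have h1 : ∀ x, x ≠ 0 → d'.v x = d.v x * d'.v z := fun x hx => by
    have := (un_iff.1 (e ▸ un_div h hx : Un d'.O _)).2
    rw [d'.mul _ _ hx (zpow_ne_zero _ (ne_of_v h)), v_zpow d' (ne_of_v h)] at this
    linarith
  have h2 : d'.v z = 1 := Int.eq_one_of_mul_eq_one_left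
    (v_nonneg (e ▸ (Or.inr (by omega) : z ∈ d.O))) ((h1 z' (ne_of_v h')).symm.trans h')
  have h3 : d.v = d'.v := funext fun x => by
    by_cases hx : x = 0
    · rw [hx, d.zero, d'.zero]
    · rw [h1 x hx, h2, mul_one]
  cases d
  cases d'
  cases h3
  rfl

theorem dv_le_eq (h : d.v z = 1) (h' : d'.v z' = 1) (e : d.O ≤ d'.O) : d = d' := by
  refine dv_eq h h' (le_antisymm e fun x hx => by_contra fun hn => ?_)
  have hz := ne_of_v h
  have hx0 : x ≠ 0 := fun h0 => hn (h0 ▸ zero_mem _)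
  have h1 : d.v x < 0 := not_le.1 fun h1 => hn (Or.inr h1)
  have h2 : z⁻¹ ∈ d'.O := by
    have : z⁻¹ = x * (x * z)⁻¹ := by field_simp
    rw [this]
    exact mul_mem hx (e (Or.inr (by rw [d.inv, d.mul _ _ hx0 hz]; omega)))
  have h3 : d'.v z = 0 := (un_iff.1 ⟨hz, e (Or.inr (by omega)), h2⟩).2
  have h4 := un_div h (ne_of_v h')
  have h5 := (un_iff.1 (⟨h4.1, e h4.2.1, e h4.2.2⟩ : Un d'.O _)).2
  rw [d'.mul _ _ (ne_of_v h') (zpow_ne_zero _ hz), v_zpow d' hz, h3, h'] at h5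
  omega

end val

variable {N : ℕ} {f : Po N} {B : Subalgebra ℂ (KK N)} {z : Fin N → KK N} {D : Fin N → Der (KK N)}
  {S : Finset (Fin N)} {d : DV (KK N)} {l : Fin N} {u g : KK N}

theorem GC.z0 (h : GC f B z D S) (l : Fin N) : z l ≠ 0 := fun e => by
  have := h.dual l l
  rw [e, map_zero, if_pos rfl] at this
  exact zero_ne_one this

theorem GC.noeth (h : GC f B z D S) : IsNoetherianRing B := by
  have := h.et
  algebraize [(aeval fun l => (⟨z l, h.zm l⟩ : B) : Po N →ₐ[ℂ] B).toRingHom]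
  exact Algebra.FiniteType.isNoetherianRing (Po N) B

theorem GC.vz (h : GC f B z D S) (hd : IsDV B (z l) d) {m : Fin N} (hm : m ≠ l) :
    d.v (z m) = 0 := by
  refine le_antisymm (not_lt.1 fun h1 => ?_) (v_nonneg (hd.le _ (h.zm m)))
  have h2 := h.pres m _ (hd.div _ (h.zm m) (Or.inr h1))
  have h3 := h.dual m m
  rw [if_pos rfl, ← inv_mul_cancel_right₀ (h.z0 l) (z m), Derivation.leibniz, h.dual, if_neg hm,
    smul_zero, zero_add, smul_eq_mul] at h3
  have := v_nonneg (hd.le _ h2)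
  rw [← inv_eq_of_mul_eq_one_right h3, d.inv, hd.one] at this
  omega

theorem Ub.v (hu : Ub B u) (hd : ∀ g ∈ B, g ∈ d.O) : d.v u = 0 :=
  (un_iff.1 ⟨hu.1, hd _ hu.2.1, hd _ hu.2.2⟩).2

theorem GC.v_mon (h : GC f B z D S) (hB : ∀ g ∈ B, g ∈ d.O) (hu : Ub B u) (c : Fin N → ℕ) :
    d.v (u * ∏ m ∈ S, z m ^ c m) = ∑ m ∈ S, c m * d.v (z m) := by
  have h0 : ∀ m ∈ S, z m ^ c m ≠ 0 := fun m _ => pow_ne_zero _ (h.z0 m)
  rw [d.mul _ _ hu.1 (Finset.prod_ne_zero_iff.2 h0), hu.v hB, zero_add, v_prod d _ _ h0]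
  exact Finset.sum_congr rfl fun m _ => by rw [← zpow_natCast, v_zpow d (h.z0 m)]

theorem GC.v_exp (h : GC f B z D S) (hd : IsDV B (z l) d) (hl : l ∈ S) (hu : Ub B u)
    (c : Fin N → ℕ) : d.v (u * ∏ m ∈ S, z m ^ c m) = c l := by
  rw [h.v_mon hd.le hu, Finset.sum_eq_single_of_mem l hl fun m _ hm => by
    rw [h.vz hd hm, mul_zero], hd.one, mul_one]

theorem rowSYS : OfSYS := by
  classical
  intro hDVR N f ι _ A z D S hf hG hloc
  have : Nonempty (DV (KK N)) := ⟨⟨0, rfl, fun _ _ _ _ => rfl, fun _ _ _ _ _ => le_rfl⟩⟩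
  have hex : ∀ b l, l ∈ S b → ∃ d, IsDV (A b) (z b l) d := fun b l hl =>
    hDVR _ _ _ ((hG b).zm l) (hG b).noeth (fun x =>
      let ⟨p, q, hq, e⟩ := frac x
      ⟨_, (hG b).pol q, ip_ne hq, e ▸ (hG b).pol p⟩) ((hG b).prime l hl)
  choose! d hd using hex
  let J := {e : DV (KK N) // ∃ b, ∃ l ∈ S b, e = d b l}
  have : Finite J := ((finite_range fun p : ι × Fin N => d p.1 p.2).subset
    fun e (⟨b, l, _, h⟩ : ∃ b, ∃ l ∈ S b, e = d b l) => ⟨(b, l), h.symm⟩).to_subtype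
  have := Fintype.ofFinite J
  have dinj : ∀ b, ∀ l ∈ S b, ∀ m ∈ S b, d b l = d b m → l = m := fun b l hl m hm e =>
    by_contra fun hn => by
      have := (hG b).vz (hd b m hm) hn
      rw [← e, (hd b l hl).one] at this
      exact one_ne_zero this
  let lab : ι → J → Option (Fin N) := fun b j =>
    if h : ∃ l ∈ S b, j.1 = d b l then some h.choose else none
  have hlab : ∀ b j l, lab b j = some l ↔ l ∈ S b ∧ j.1 = d b l := fun b j l => by
    constructor
    · intro h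
      by_cases h1 : ∃ l ∈ S b, j.1 = d b l
      · rw [show lab b j = some h1.choose from dif_pos h1] at h
        exact Option.some.inj h ▸ h1.choose_spec
      · rw [show lab b j = none from dif_neg h1] at h
        cases h
    · intro h
      have h1 : ∃ l ∈ S b, j.1 = d b l := ⟨l, h⟩
      rw [show lab b j = some h1.choose from dif_pos h1,
        dinj b _ h1.choose_spec.1 l h.1 (h1.choose_spec.2.symm.trans h.2)]
  have hne : ∀ b j, (lab b j).elim 1 (z b) ≠ 0 := fun b j => by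
    cases lab b j
    exacts [one_ne_zero, (hG b).z0 _]
  let η : ι → J → (KK N)ˣ := fun b j => Units.mk0 _ (hne b j)
  have hs : ∀ b j l, lab b j = some l → (η b j : KK N) = z b l := fun b j l h => by
    simp [η, h]
  have hn : ∀ b j, lab b j = none → η b j = 1 := fun b j h => Units.ext (by simp [η, h])
  have hηm : ∀ b j, (η b j : KK N) ∈ A b := fun b j => by
    cases h : lab b j with
    | none => rw [hn b j h]; exact one_mem _
    | some l => rw [hs b j l h]; exact (hG b).zm l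
  have hpos : ∀ j : J, 0 < j.1.v (ip N f) := fun ⟨_, b, l, hl, rfl⟩ => by
    obtain ⟨u, a, hu, ha, e⟩ := (hG b).mon
    rw [e, (hG b).v_exp (hd b l hl) hl hu]
    exact_mod_cast ha l hl
  have hmem : ∀ a b j, ((η a j / η b j : (KK N)ˣ) : KK N) ∈ A a ⊔ A b := fun a b j => by
    rw [Units.val_div_eq_div_val, div_eq_mul_inv]
    have la : A a ≤ A a ⊔ A b := le_sup_left
    have lb : A b ≤ A a ⊔ A b := le_sup_right
    cases hb : lab b j with
    | none => rw [hn b j hb, Units.val_one, inv_one, mul_one]; exact la (hηm a j)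
    | some l =>
      obtain ⟨hl, e⟩ := (hlab b j l).1 hb
      have hj : IsDV (A b) (z b l) j.1 := e ▸ hd b l hl
      rw [hs b j l hb]
      by_cases hz : (z b l)⁻¹ ∈ A a ⊔ A b
      · exact mul_mem (la (hηm a j)) hz
      have h1 : ∀ u, u ≠ 0 → u ∈ A b → u⁻¹ ∈ A b ⊔ A a → j.1.v u = 0 := fun u h0 hu hu' => by
        refine le_antisymm (not_lt.1 fun h1 => hz ?_) (v_nonneg (hj.le u hu))
        have : (z b l)⁻¹ = u * (z b l)⁻¹ * u⁻¹ := by field_simp
        rw [this]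
        exact mul_mem (lb (hj.div u hu (Or.inr h1))) (sup_comm (A b) (A a) ▸ hu')
      have h2 : ∀ g ∈ A a, g ∈ j.1.O := fun g hg => by
        obtain ⟨u, h0, hu, hu', hug⟩ := hloc b a g hg
        rw [← inv_mul_cancel_left₀ h0 g]
        exact mul_mem (un_iff.2 ⟨h0, h1 u h0 hu hu'⟩).2.2 (hj.le _ hug)
      have h3 : ∃ m ∈ S a, 0 < j.1.v (z a m) := by
        by_contra! h3
        obtain ⟨u, c, hu, -, e⟩ := (hG a).mon
        have := hpos j
        rw [e, (hG a).v_mon h2 hu] at this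
        exact this.not_ge (Finset.sum_nonpos fun m hm =>
          mul_nonpos_of_nonneg_of_nonpos (Nat.cast_nonneg _) (h3 m hm))
      obtain ⟨m, hm, h3⟩ := h3
      have hm' := hd a m hm
      have hC : ∀ g ∈ A a ⊔ A b, g ∈ j.1.O := fun g hg => by
        rw [← Algebra.adjoin_eq (A a), ← Algebra.adjoin_eq (A b), ← Algebra.adjoin_union] at hg
        induction hg using Algebra.adjoin_induction with
        | mem x hx => exact hx.elim (h2 x) (hj.le x)
        | algebraMap r => exact h2 _ (Subalgebra.algebraMap_mem _ r)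
        | add x y _ _ hx hy => exact add_mem hx hy
        | mul x y _ _ hx hy => exact mul_mem hx hy
      have h4 : ∀ s ∈ A a, s ≠ 0 → j.1.v s = 0 → s⁻¹ ∈ (d a m).O := fun s hs h0 hv => by
        refine (un_iff.2 ⟨h0, le_antisymm (not_lt.1 fun h5 => ?_) (v_nonneg (hm'.le s hs))⟩).2.2
        have := v_nonneg (h2 _ (hm'.div s hs (Or.inr h5)))
        rw [j.1.mul _ _ h0 (inv_ne_zero ((hG a).z0 m)), j.1.inv] at this
        omega
      have h5 : j.1 = d a m := dv_le_eq hj.one hm'.one fun x hx => by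
        obtain ⟨s, hs, hu, hsx⟩ := hj.loc x hx
        obtain ⟨u1, a1, a2, a3, a4⟩ := hloc a b s hs
        obtain ⟨u2, b1, b2, b3, b4⟩ := hloc a b _ hsx
        have c1 := (un_iff.1 (⟨a1, h2 _ a2, hC _ a3⟩ : Un j.1.O u1)).2
        have c2 := (un_iff.1 (⟨b1, h2 _ b2, hC _ b3⟩ : Un j.1.O u2)).2
        have c3 := h4 _ a4 (mul_ne_zero a1 hu.1)
          (by rw [j.1.mul _ _ a1 hu.1, c1, (un_iff.1 hu).2, add_zero])
        have : x = (u1 * s)⁻¹ * u2⁻¹ * (u1 * (u2 * (s * x))) := by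
          have := hu.1
          field_simp
        rw [this]
        exact mul_mem (mul_mem c3 (h4 _ b2 b1 c2)) (hm'.le _ (mul_mem a2 b4))
      rw [hs a j m ((hlab a j m).2 ⟨hm, h5⟩)]
      obtain ⟨u, h0, hu, hu', hug⟩ := hloc b a _ ((hG a).zm m)
      have : z a m * (z b l)⁻¹ = u * z a m * (z b l)⁻¹ * u⁻¹ := by field_simp
      rw [this]
      refine mul_mem (lb (hj.div _ hug (Or.inr ?_))) (sup_comm (A b) (A a) ▸ hu')
      rw [j.1.mul _ _ h0 ((hG a).z0 m), h1 u h0 hu hu']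
      omega
  refine ⟨J, inferInstance, ⟨fun l => ip N (X l), pd N, A, z, D, lab, η, pd_X, pd_comm,
    fun b => (hG b).dual, fun b i => chain _, fun b => (hG b).zm, fun b => (hG b).pres,
    fun b j j' l h h' => Subtype.ext (((hlab _ _ _).1 h).2.trans ((hlab _ _ _).1 h').2.symm),
    hs, hn, hmem, fun a b g hg => ?_⟩, Subtype.val, rfl, rfl, rfl, rfl, hpos, fun b j h => ?_,
    fun ⟨_, b, l, hl, rfl⟩ => ⟨b, ?_⟩, fun ⟨_, b, l, hl, rfl⟩ ⟨_, b', l', hl', rfl⟩ e =>
      Subtype.ext (dv_eq (hd b l hl).one (hd b' l' hl').one e), ?_⟩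
  · obtain ⟨u, h0, h1, h2, h3⟩ := hloc a b g hg
    exact ⟨Units.mk0 u h0, h1, by simpa using h2, h3⟩
  · change IsDV (A b) (η b j) j.1
    cases hb : lab b j with
    | none =>
      refine absurd ?_ h
      change (η b j : KK N)⁻¹ ∈ _
      rw [hn b j hb, Units.val_one, inv_one]
      exact one_mem _
    | some l =>
      rw [hs b j l hb, ((hlab _ _ _).1 hb).2]
      exact hd b l ((hlab _ _ _).1 hb).1
  · change (η b _ : KK N)⁻¹ ∉ _
    rw [hs b _ l ((hlab _ _ _).2 ⟨hl, rfl⟩)]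
    intro h
    have := v_nonneg ((hd b l hl).le _ h)
    rw [DV.inv, (hd b l hl).one] at this
    omega
  · rintro b _ ⟨u, c, hu, rfl⟩
    have e : ((∏ j, η b j ^ (-j.1.v (u * ∏ l ∈ S b, z b l ^ c l)) : (KK N)ˣ) : KK N) =
        ∏ l ∈ S b, (z b l ^ c l)⁻¹ := by
      rw [Units.coe_prod, ← Finset.prod_coe_sort (S b) fun l => (z b l ^ c l)⁻¹]
      symm
      refine Finset.prod_of_injOn (fun l : S b => (⟨d b l, b, l, l.2, rfl⟩ : J))
        (fun l _ m _ e => Subtype.ext (dinj b _ l.2 _ m.2 (congrArg Subtype.val e)))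
        (fun _ _ => Finset.mem_coe.2 (Finset.mem_univ _)) (fun j _ hj => ?_) fun l _ => ?_
      · cases hb : lab b j with
        | none => rw [hn b j hb, one_zpow, Units.val_one]
        | some l =>
          exact absurd ⟨⟨l, ((hlab _ _ _).1 hb).1⟩, Finset.mem_coe.2 (Finset.mem_univ _),
            Subtype.ext ((hlab _ _ _).1 hb).2.symm⟩ hj
      · rw [Units.val_zpow_eq_zpow_val, hs b _ l ((hlab _ _ _).2 ⟨l.2, rfl⟩),
          (hG b).v_exp (hd b l l.2) l.2 hu, zpow_neg, zpow_natCast]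
    change Ub _ (_ * ((∏ j, η b j ^ (-j.1.v (u * ∏ l ∈ S b, z b l ^ c l)) : (KK N)ˣ) : KK N))
    rw [e, Finset.prod_inv_distrib, mul_inv_cancel_right₀
      (Finset.prod_ne_zero_iff.2 fun l _ => pow_ne_zero _ ((hG b).z0 l))]
    exact hu

end Pool.Agent.MP_ee8c61_ag.M3B1
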