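import Pool.Agent.MP_ee8c61_ag.M3B1.Basic

/-! A finite cover of the blow-up by good charts. -/

namespace Pool.Agent.MP_ee8c61_ag.M3B1

open MvPolynomial Set
open Pool.Agent.MP_96693b_ag.RS (Der Loc exists_locOf_of_notMem)
open M3 (Po KK ip Vl Ov)

variable {N : ℕ} {f : Po N} {W G : Set (Po N)}

/-- A valuation ring over affine space as an algebra. -/
def vAlg (V : Vl N) (hV : Ov V) : Subalgebra ℂ (KK N) :=
  { V.toSubring with algebraMap_mem' := fun c => (ip N).commutes c ▸ hV (algebraMap ℂ _ c) }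

/-- Finitely many good open sets cover a chart. -/
theorem cov_fin (h : RowLOC) (hW : Good f W) (hP : Prin W G) (hG : G.Finite) (w : W) :
    ∃ T : Set (KK N), T.Finite ∧ (∀ t ∈ T, t ∈ ch W w ∧ t ≠ 0 ∧
      (∃ z D S, GC f (cl W w t) z D S) ∧
        ∃ g ∈ G, g ≠ 0 ∧ ∀ g' ∈ G, ip N g' / ip N g ∈ cl W w t) ∧
      ∀ V : Vl N, (∀ x ∈ ch W w, x ∈ V) → ∃ t ∈ T, t⁻¹ ∈ V := by
  let P : Set (ch W w) := {t | (t : KK N) ≠ 0 ∧ (∃ z D S, GC f (cl W w t) z D S) ∧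
    ∃ g ∈ G, g ≠ 0 ∧ ∀ g' ∈ G, ip N g' / ip N g ∈ cl W w t}
  have top : Ideal.span P = ⊤ := by
    rw [← Ideal.radical_eq_top, Ideal.eq_top_iff_one]
    by_contra h1
    obtain ⟨L, hL, h0, -⟩ := exists_locOf_of_notMem (ch_fg hW.fin) h1
    obtain ⟨t, ht, h2, h3⟩ := h N f W G hW hP hG w w.2 L hL
    exact h2 (h0 ⟨t, ht⟩ (Ideal.subset_span ⟨Loc.ne_zero_of_ev h2, h3⟩))
  obtain ⟨T, hT, h1⟩ := (Ideal.span_eq_top_iff_finite P).1 top
  refine ⟨Subtype.val '' (T : Set (ch W w)), T.finite_toSet.image _, ?_, fun V hV => ?_⟩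
  · rintro _ ⟨t, ht, rfl⟩
    exact ⟨t.2, hT ht⟩
  · by_contra h2
    let J : Ideal (ch W w) :=
      { carrier := {a | V.valuation a < 1}
        add_mem' := fun ha hb => V.valuation.map_add_lt ha hb
        zero_mem' := by simp
        smul_mem' := fun c a ha => by
          change V.valuation (c * a : KK N) < 1
          rw [map_mul]
          exact mul_lt_one_of_nonneg_of_lt_one_right
            ((V.valuation_le_one_iff _).2 (hV _ c.2)) zero_le ha }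
    have h3 : Ideal.span (T : Set (ch W w)) ≤ J := Ideal.span_le.2 fun t ht =>
      V.mem_nonunits_iff.1 (V.mem_nonunits_iff_or.2 (Or.inr fun h4 => h2 ⟨t, ⟨t, ht, rfl⟩, h4⟩))
    have h4 : V.valuation ((1 : ch W w) : KK N) < 1 := h3 (h1 ▸ Submodule.mem_top)
    simp at h4

theorem rowCOV : OfCOV := by
  intro h N f W G hf hW hP hG
  choose T hT h1 h2 using cov_fin h hW hP hG
  have := hW.fin.to_subtype
  have := fun w => (hT w).to_subtype
  choose z D S hz using fun b : Σ w : W, T w => (h1 b.1 b.2 b.2.2).2.2.1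
  choose g hg using fun b : Σ w : W, T w => (h1 b.1 b.2 b.2.2).2.2.2
  refine ⟨Σ w : W, T w, Fintype.ofFinite _, fun b => b.1, fun b => b.2, z, D, S, g,
    fun b => b.1.2, fun b => (h1 b.1 b.2 b.2.2).1, fun b => (h1 b.1 b.2 b.2.2).2.1, hz, hg,
    fun V hV => ?_⟩
  have hne : W.Nonempty := by
    obtain ⟨m, hm⟩ := hW.rad
    by_contra h0
    rw [not_nonempty_iff_eq_empty.1 h0, Ideal.span_empty, Ideal.mem_bot] at hm
    exact pow_ne_zero m hf hm
  obtain ⟨w, hw, hm⟩ := exists_max_image W (fun v => V.valuation (ip N v)) hW.fin hne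
  have h0 : V.valuation (ip N w) ≠ 0 := (Valuation.ne_zero_iff _).2 (ip_ne fun e => hW.nz (e ▸ hw))
  have h3 : ch W w ≤ vAlg V hV := ch_le.2 ⟨hV, fun v hv => (V.valuation_le_one_iff _).1 (by
    rw [map_div₀]
    exact (div_le_one₀ (zero_lt_iff.2 h0)).2 (hm v hv))⟩
  obtain ⟨t, ht, h4⟩ := h2 ⟨w, hw⟩ V h3
  exact ⟨⟨⟨w, hw⟩, t, ht⟩, (cl_le (A := vAlg V hV)).2 ⟨h3, h4⟩⟩

end Pool.Agent.MP_ee8c61_ag.M3B1
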