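import Pool.Agent.MP_ee8c61_ag.M3B1.Basic

/-! From a finite cover by good charts to a projective log resolution. -/

namespace Pool.Agent.MP_ee8c61_ag.M3B1

open MvPolynomial Set
open Pool.Agent.MP_96693b_ag.RS (Der)
open M3 (Po KK ip Vl Ov Un DV Mod Lc)

namespace RFin

variable {N : ℕ} {B : Subalgebra ℂ (KK N)} {x y : KK N} {f : Po N}

theorem ub_one : Ub B 1 := ⟨one_ne_zero, one_mem _, by rw [inv_one]; exact one_mem _⟩

theorem ub_mul (hx : Ub B x) (hy : Ub B y) : Ub B (x * y) :=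
  ⟨mul_ne_zero hx.1 hy.1, mul_mem hx.2.1 hy.2.1, by rw [mul_inv]; exact mul_mem hx.2.2 hy.2.2⟩

theorem ub_pow (hx : Ub B x) (n : ℕ) : Ub B (x ^ n) :=
  ⟨pow_ne_zero _ hx.1, pow_mem hx.2.1 _, by rw [← inv_pow]; exact pow_mem hx.2.2 _⟩

theorem ub_inv (hx : Ub B x) : Ub B x⁻¹ :=
  ⟨inv_ne_zero hx.1, hx.2.2, by rw [inv_inv]; exact hx.2.1⟩

theorem ub_zpow (hx : Ub B x) (n : ℤ) : Ub B (x ^ n) := by
  cases n with
  | ofNat n =>
    rw [Int.ofNat_eq_natCast, zpow_natCast]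
    exact ub_pow hx n
  | negSucc n =>
    rw [zpow_negSucc]
    exact ub_inv (ub_pow hx _)

theorem ub_le {B' : Subalgebra ℂ (KK N)} (h : ∀ g ∈ B, g ∈ B') (hx : Ub B x) : Ub B' x :=
  ⟨hx.1, h _ hx.2.1, h _ hx.2.2⟩

/-- A valuation ring containing the polynomials, as a subalgebra. -/
def va {V : Vl N} (hV : Ov V) : Subalgebra ℂ (KK N) where
  carrier := V
  mul_mem' := fun ha hb => V.mul_mem _ _ ha hb
  add_mem' := fun ha hb => V.add_mem _ _ ha hb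
  algebraMap_mem' := fun c => by
    rw [← (ip N).commutes c]
    exact hV _

theorem val_eq (d : DV (KK N)) (hx : x ≠ 0) (hy : y ≠ 0) (h1 : x / y ∈ d.O) (h2 : y / x ∈ d.O) :
    d.v x = d.v y := by
  have a1 : 0 ≤ d.v (x / y) := (d.mem_F.1 (d.mem_O.1 h1)).resolve_left (div_ne_zero hx hy)
  have a2 : 0 ≤ d.v (y / x) := (d.mem_F.1 (d.mem_O.1 h2)).resolve_left (div_ne_zero hy hx)
  rw [div_eq_mul_inv, d.mul _ _ hx (inv_ne_zero hy), d.inv] at a1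
  rw [div_eq_mul_inv, d.mul _ _ hy (inv_ne_zero hx), d.inv] at a2
  omega

theorem dv_ne (hf : f ≠ 0) (h : Dv B f x) : x ≠ 0 := by
  obtain ⟨_, m, y, _, e⟩ := h
  exact left_ne_zero_of_mul (e ▸ pow_ne_zero m (ip_ne hf))

theorem der_O {d : DV (KK N)} {η : KK N} (h : IsDV B η d) {D : Der (KK N)}
    (hD : ∀ g ∈ B, D g ∈ B) (hx : x ∈ d.O) : D x ∈ d.O := by
  obtain ⟨s, hs, hu, hsx⟩ := h.loc x hx
  have e : D x = s⁻¹ * (D (s * x) - x * D s) := by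
    rw [D.leibniz, smul_eq_mul, smul_eq_mul, add_sub_cancel_right, inv_mul_cancel_left₀ hu.1]
  rw [e]
  exact mul_mem hu.2.2 (sub_mem (h.le _ (hD _ hsx)) (mul_mem hx (h.le _ (hD _ hs))))

section Sy

variable {ι J : Type} [Fintype J] {Sy : H59.Sys ℂ (KK N) ι J N} {S : ι → Finset (Fin N)}
  {v : J → DV (KK N)}

omit [Fintype J] in
theorem eta_mem (b : ι) (j : J) : (Sy.η b j : KK N) ∈ Sy.A b := by
  cases h : Sy.lab b j with
  | none =>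
    rw [Sy.η_none b j h]
    exact one_mem _
  | some i =>
    rw [Sy.η_some b j i h]
    exact Sy.z_mem b i

theorem mon_eq (b : ι) (c : J → ℤ) :
    ((Sy.mon b c : (KK N)ˣ) : KK N) = ∏ j, (Sy.η b j : KK N) ^ c j := by
  rw [H59.Sys.mon, Units.coe_prod]
  exact Finset.prod_congr rfl fun j _ => Units.val_zpow_eq_zpow_val _ _

theorem mon_add (b : ι) (c c1 : J → ℤ) : ((Sy.mon b (fun j => c j + c1 j) : (KK N)ˣ) : KK N) =
    (Sy.mon b c : (KK N)ˣ) * (Sy.mon b c1 : (KK N)ˣ) := by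
  rw [mon_eq, mon_eq, mon_eq, ← Finset.prod_mul_distrib]
  exact Finset.prod_congr rfl fun j _ => zpow_add₀ (Sy.η b j).ne_zero _ _

theorem mon_neg (b : ι) (c : J → ℤ) : ((Sy.mon b (fun j => -c j) : (KK N)ˣ) : KK N) *
    (Sy.mon b c : (KK N)ˣ) = 1 := by
  rw [← mon_add, mon_eq]
  exact Finset.prod_eq_one fun j _ => by rw [neg_add_cancel, zpow_zero]

theorem mon_pow (b : ι) (c : J → ℤ) (n : ℕ) :
    ((Sy.mon b (fun j => c j * n) : (KK N)ˣ) : KK N) = ((Sy.mon b c : (KK N)ˣ) : KK N) ^ n := by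
  rw [mon_eq, mon_eq, ← Finset.prod_pow]
  exact Finset.prod_congr rfl fun j _ => by rw [zpow_mul, zpow_natCast]

theorem mon_ub (b : ι) (c : J → ℤ) (h : ∀ j, (Sy.η b j : KK N)⁻¹ ∉ Sy.A b → c j = 0) :
    Ub (Sy.A b) ((Sy.mon b c : (KK N)ˣ) : KK N) := by
  rw [mon_eq]
  refine Finset.prod_induction _ _ (fun _ _ => ub_mul) ub_one fun j _ => ?_
  by_cases e : (Sy.η b j : KK N)⁻¹ ∈ Sy.A b
  · exact ub_zpow ⟨(Sy.η b j).ne_zero, eta_mem b j, e⟩ _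
  · rw [h j e, zpow_zero]
    exact ub_one

theorem lemG (hM : RowMONO) (hf : f ≠ 0) (hS : IsSys f Sy.A Sy.z Sy.D S Sy v)
    (hG : ∀ b, GC f (Sy.A b) (Sy.z b) (Sy.D b) (S b)) (g : ι → KK N)
    (hd : ∀ b, Dv (Sy.A b) f (g b))
    (hv : ∀ j a b, (Sy.η a j : KK N)⁻¹ ∉ Sy.A a → (Sy.η b j : KK N)⁻¹ ∉ Sy.A b →
      (v j).v (g a) = (v j).v (g b)) :
    ∃ k : J → ℕ, (∀ j, ∃ b, (k j : ℤ) = (v j).v (g b)) ∧
      ∀ b, Ub (Sy.A b) (g b * ((Sy.mon b fun j => -(k j : ℤ) : (KK N)ˣ) : KK N)) := by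
  choose β hβ using hS.ne
  have h0 : ∀ j, (((v j).v (g (β j))).toNat : ℤ) = (v j).v (g (β j)) := fun j =>
    Int.toNat_of_nonneg (((v j).mem_F.1 ((v j).mem_O.1
      ((hS.dv _ j (hβ j)).le _ (hd _).1))).resolve_left (dv_ne hf (hd _)))
  refine ⟨fun j => ((v j).v (g (β j))).toNat, fun j => ⟨β j, h0 j⟩, fun b => ?_⟩
  have h1 := hS.mon b (g b) (hM N f _ _ _ _ (hG b) _ (hd b))
  have h2 := mon_ub (Sy := Sy) b (fun j => (v j).v (g b) - (v j).v (g (β j))) fun j hj =>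
    sub_eq_zero.2 (hv j b (β j) hj (hβ j))
  have h3 := ub_mul h1 h2
  rw [mul_assoc, ← mon_add] at h3
  have e : (fun j => -((((v j).v (g (β j))).toNat : ℕ) : ℤ)) =
      fun j => -(v j).v (g b) + ((v j).v (g b) - (v j).v (g (β j))) := funext fun j => by
    rw [h0]
    ring
  rw [e]
  exact h3

theorem lemT (hM : RowMONO) (hf : f ≠ 0) (hS : IsSys f Sy.A Sy.z Sy.D S Sy v)
    (hG : ∀ b, GC f (Sy.A b) (Sy.z b) (Sy.D b) (S b)) {T : Set (Po N)}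
    (hT : f ∈ (Ideal.span T).radical) (g : ι → Po N)
    (hg : ∀ b, g b ∈ T ∧ g b ≠ 0 ∧ ∀ g' ∈ T, ip N g' / ip N (g b) ∈ Sy.A b) :
    ∃ c : J → ℤ, ∀ b, Ub (Sy.A b) (ip N (g b) * ((Sy.mon b c : (KK N)ˣ) : KK N)) := by
  obtain ⟨k, _, h⟩ := lemG hM hf hS hG (fun b => ip N (g b))
    (fun b => dv_of_rad (hG b).pol hT (hg b).2.1 (hg b).2.2) fun j a b ha hb =>
      val_eq (v j) (ip_ne (hg a).2.1) (ip_ne (hg b).2.1)
        ((hS.dv b j hb).le _ ((hg b).2.2 _ (hg a).1)) ((hS.dv a j ha).le _ ((hg a).2.2 _ (hg b).1))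
  exact ⟨_, h⟩

theorem exU {b : ι} {c : J → ℤ}
    (h : Ub (Sy.A b) (x * ((Sy.mon b fun j => -c j : (KK N)ˣ) : KK N))) :
    ∃ U : (KK N)ˣ, Sy.IsU b U ∧ x = U * ((Sy.mon b c : (KK N)ˣ) : KK N) := by
  refine ⟨Units.mk0 _ h.1, ⟨h.2.1, ?_⟩, ?_⟩
  · rw [Units.val_inv_eq_inv_val]
    exact h.2.2
  · rw [Units.val_mk0, mul_assoc, mon_neg, mul_one]

end Sy

theorem gens (M : Mod N) {G : Set (Po N)} {g : M.ι → Po N} {c : M.J → ℤ}
    (hc : ∀ V, Ov V → ∃ b, M.In b V)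
    (hg : ∀ b, g b ∈ G ∧ g b ≠ 0 ∧ ∀ g' ∈ G, ip N g' / ip N (g b) ∈ M.S.A b)
    (hu : ∀ b, Ub (M.S.A b) (ip N (g b) * M.mon b c)) (T : Finset (KK N))
    (hT : (T : Set (KK N)) = ip N '' G) : M.Gens c T := by
  have e : ∀ (p : Po N) b, ip N p * M.mon b c =
      ip N p / ip N (g b) * (ip N (g b) * M.mon b c) := fun p b => by
    rw [← mul_assoc, div_mul_cancel₀ _ (ip_ne (hg b).2.1)]
  refine ⟨fun y hy => ?_, fun V hV => ?_⟩
  · obtain ⟨p, hp, rfl⟩ : y ∈ ip N '' G := hT ▸ Finset.mem_coe.2 hy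
    intro V _ b hb
    rw [e p b]
    exact hb _ (mul_mem ((hg b).2.2 p hp) (hu b).2.1)
  · obtain ⟨a, ha⟩ := hc V hV
    refine ⟨ip N (g a), Finset.mem_coe.1 (hT ▸ ⟨g a, (hg a).1, rfl⟩), fun b hb => ?_⟩
    rw [e (g a) b]
    refine (ub_mul (B := va hV) ⟨div_ne_zero (ip_ne (hg a).2.1) (ip_ne (hg b).2.1),
      hb _ ((hg b).2.2 _ (hg a).1), ?_⟩ (ub_le hb (hu b)) :)
    rw [inv_div]
    exact ha _ ((hg a).2.2 _ (hg b).1)

theorem amp (M : Mod N) {W : Set (Po N)} {w : M.ι → Po N} {t : M.ι → KK N} {c : M.J → ℤ}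
    (hA : ∀ b, M.S.A b = cl W (w b) (t b)) (hc : ∀ V, Ov V → ∃ b, M.In b V)
    (hw : ∀ b, w b ∈ W) (hw0 : ∀ b, w b ≠ 0) (ht : ∀ b, t b ∈ ch W (w b)) (ht0 : ∀ b, t b ≠ 0)
    (hu : ∀ b, Ub (M.S.A b) (ip N (w b) * M.mon b c)) : ∃ u, M.Amp u := by
  have hle : ∀ b, ∀ y ∈ ch W (w b), y ∈ M.S.A b := fun b y hy => hA b ▸ ch_le_cl hy
  choose e0 he0 using fun p : M.ι × M.ι => ch_shift (w := w p.1) (hw p.2) (hw0 p.2) (ht p.2)
  obtain ⟨e, he⟩ : ∃ e, ∀ a b, (ip N (w b) / ip N (w a)) ^ e * t b ∈ M.S.A a :=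
    ⟨Finset.univ.sup e0, fun a b =>
      hle a _ (he0 (a, b) _ (Finset.le_sup (Finset.mem_univ (a, b))))⟩
  have hq : ∀ a b, ip N (w b) / ip N (w a) ∈ M.S.A a := fun a b => hle a _ (div_mem_ch (hw b))
  have hq0 : ∀ a b, ip N (w b) / ip N (w a) ≠ 0 := fun a b =>
    div_ne_zero (ip_ne (hw0 b)) (ip_ne (hw0 a))
  have hti : ∀ b, (t b)⁻¹ ∈ M.S.A b := fun b => hA b ▸ inv_mem_cl
  have id1 : ∀ a b, t b * ip N (w b) ^ (e + 1) * M.mon a (fun j => c j * (e + 1 : ℕ)) =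
      (ip N (w b) / ip N (w a)) ^ e * t b * (ip N (w b) / ip N (w a)) *
        (ip N (w a) * M.mon a c) ^ (e + 1) := by
    intro a b
    have h : ip N (w b) = ip N (w b) / ip N (w a) * ip N (w a) :=
      (div_mul_cancel₀ _ (ip_ne (hw0 a))).symm
    rw [Mod.mon, mon_pow]
    generalize ip N (w b) / ip N (w a) = q at h ⊢
    rw [h]
    ring
  have gen2 : ∀ b V, Ov V → M.In b V →
      M.Gen V (fun j => c j * (e + 1 : ℕ)) (t b * ip N (w b) ^ (e + 1)) := by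
    intro b V hV hb a ha
    rw [id1]
    have h1 : Ub (va hV) (ip N (w b) / ip N (w a)) :=
      ⟨hq0 a b, ha _ (hq a b), by rw [inv_div]; exact hb _ (hq b a)⟩
    have h2 : Ub (va hV) (t b) := ⟨ht0 b, hb _ (hle b _ (ht b)), hb _ (hti b)⟩
    exact (ub_mul (ub_mul (ub_mul (ub_pow h1 e) h2) h1) (ub_pow (ub_le (B' := va hV) ha (hu a)) _) :)
  refine ⟨fun j => c j * (e + 1 : ℕ), M.ι, M.fι, id, t, fun b => t b * ip N (w b) ^ (e + 1),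
    fun b => hle b _ (ht b), ht0, fun b V _ a ha => ?_, fun V hV => ?_,
    fun b V hV => ⟨fun h => ?_, fun h => gen2 b V hV h.1⟩⟩
  · rw [id1]
    exact ha _ (mul_mem (mul_mem (he a b) (hq a b)) (pow_mem (hu a).2.1 _))
  · obtain ⟨a, ha⟩ := hc V hV
    exact ⟨a, gen2 a V hV ha⟩
  · obtain ⟨a, ha⟩ := hc V hV
    have h1 := h a ha
    rw [id1] at h1
    have hP := ha _ (he a b)
    have hQ := ha _ (hq a b)
    have hR := ha _ (pow_mem (hu a).2.1 (e + 1))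
    have hQ0 := hq0 a b
    have hP0 : (ip N (w b) / ip N (w a)) ^ e * t b ≠ 0 := mul_ne_zero (pow_ne_zero _ hQ0) (ht0 b)
    have hR0 := pow_ne_zero (e + 1) (hu a).1
    have h2 : (ip N (w b) / ip N (w a))⁻¹ ∈ V := by
      have h3 := mul_mem (mul_mem hP hR) h1.2.2
      rwa [mul_right_comm _ (ip N (w b) / ip N (w a)), mul_inv,
        mul_inv_cancel_left₀ (mul_ne_zero hP0 hR0)] at h3
    have h4 : (t b)⁻¹ ∈ V := by
      have h3 := mul_mem (pow_mem hQ e) (mul_mem (mul_mem hQ hR) h1.2.2)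
      rwa [mul_assoc _ (ip N (w b) / ip N (w a)), mul_comm (_ * t b), mul_inv,
        mul_inv_cancel_left₀ (mul_ne_zero hQ0 hR0), mul_inv,
        mul_inv_cancel_left₀ (pow_ne_zero _ hQ0)] at h3
    refine ⟨fun y hy => ?_, h4⟩
    have h5 : cl W (w b) (t b) ≤ va hV := by
      refine cl_le.2 ⟨ch_le.2 ⟨hV, fun u hu' => ?_⟩, h4⟩
      have h6 := mul_mem (ha _ (hle a _ (div_mem_ch hu'))) h2
      rwa [inv_div, div_mul_div_cancel₀ (ip_ne (hw0 a))] at h6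
    exact h5 (hA b ▸ hy)

theorem loc {W : Set (Po N)} {w w' : Po N} {t t' : KK N} (hw : w ∈ W) (hw' : w' ∈ W) (h0 : w ≠ 0)
    (h0' : w' ≠ 0) (ht' : t' ∈ ch W w') (ht0 : t' ≠ 0) (hx : x ∈ cl W w' t') :
    ∃ u, u ≠ 0 ∧ u ∈ cl W w t ∧ u⁻¹ ∈ cl W w t ⊔ cl W w' t' ∧ u * x ∈ cl W w t := by
  obtain ⟨m, hm⟩ := exists_pow_cl ht' ht0 hx
  obtain ⟨e, he⟩ := ch_shift (w := w) hw' h0' ht'
  obtain ⟨e1, he1⟩ := ch_shift (w := w) hw' h0' hm
  have hs : ip N w' / ip N w ∈ ch W w := div_mem_ch hw'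
  have hs0 : ip N w' / ip N w ≠ 0 := div_ne_zero (ip_ne h0') (ip_ne h0)
  have hs' : (ip N w' / ip N w)⁻¹ ∈ cl W w' t' := by
    rw [inv_div]
    exact ch_le_cl (div_mem_ch hw)
  refine ⟨((ip N w' / ip N w) ^ e * t') ^ m * (ip N w' / ip N w) ^ e1,
    mul_ne_zero (pow_ne_zero _ (mul_ne_zero (pow_ne_zero _ hs0) ht0)) (pow_ne_zero _ hs0),
    ch_le_cl (mul_mem (pow_mem (he e le_rfl) m) (pow_mem hs e1)),
    (le_sup_right : cl W w' t' ≤ _) ?_, ch_le_cl ?_⟩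
  · rw [mul_inv, ← inv_pow, ← inv_pow, mul_inv, ← inv_pow]
    exact mul_mem (pow_mem (mul_mem (pow_mem hs' e) inv_mem_cl) m) (pow_mem hs' e1)
  · have h : ((ip N w' / ip N w) ^ e * t') ^ m * (ip N w' / ip N w) ^ e1 * x =
        ((ip N w' / ip N w) ^ e) ^ m * ((ip N w' / ip N w) ^ e1 * (t' ^ m * x)) := by ring
    rw [h]
    exact mul_mem (pow_mem (pow_mem hs e) m) (he1 e1 le_rfl)

end RFin

open RFin in
theorem rowFIN : OfFIN := by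
  intro hM hJ hK hSY N f W G ι fι w t z D S g hf hr hW h
  have hw0 : ∀ b, w b ≠ 0 := fun b e => hW.nz (e ▸ h.wm b)
  obtain ⟨J, fJ, Sy, v, hS⟩ := hSY N f ι (fun b => cl W (w b) (t b)) z D S hf h.gc
    fun a b x hx => loc (h.wm a) (h.wm b) (hw0 a) (hw0 b) (h.tm b) (h.t0 b) hx
  obtain rfl := hS.hz
  obtain rfl := hS.hD
  have hA : ∀ b, Sy.A b = cl W (w b) (t b) := fun b => congrFun hS.hA b
  rw [← hS.hA] at hS
  have hG : ∀ b, GC f (Sy.A b) (Sy.z b) (Sy.D b) (S b) := fun b => by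
    rw [hA]
    exact h.gc b
  have hdj : ∀ b, Dv (Sy.A b) f (jac (Sy.D b)) := fun b => by
    rw [hA]
    exact hJ N f W _ _ _ _ _ hW (h.wm b) (h.tm b) (h.gc b)
  obtain ⟨a, ha1, ha2⟩ := lemG hM hf hS hG (fun _ => ip N f)
    (fun b => ⟨(hG b).pol f, 1, 1, one_mem _, by rw [pow_one, mul_one]⟩) fun _ _ _ _ _ => rfl
  obtain ⟨k, _, hk⟩ := lemG hM hf hS hG (fun b => jac (Sy.D b)) hdj fun j a b ha hb => by
    have hu := hK N (v j).O (Sy.z a) (Sy.z b) (Sy.D a) (Sy.D b) (hG a).dual (hG b).dual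
      (fun l m => der_O (hS.dv a j ha) ((hG a).pres l) ((hS.dv b j hb).le _ ((hG b).zm m)))
      (fun l m => der_O (hS.dv b j hb) ((hG b).pres l) ((hS.dv a j ha).le _ ((hG a).zm m)))
    refine val_eq (v j) (dv_ne hf (hdj a)) (dv_ne hf (hdj b)) hu.2.1 ?_
    rw [← inv_div]
    exact hu.2.2
  have hgG : ∀ b, g b ∈ (G : Set (Po N)) ∧ g b ≠ 0 ∧
      ∀ g' ∈ (G : Set (Po N)), ip N g' / ip N (g b) ∈ Sy.A b := fun b => by
    rw [hA]
    exact h.gm b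
  obtain ⟨c, hc⟩ := lemT hM hf hS hG (T := (G : Set (Po N)))
    (let ⟨r, e⟩ := hr; ⟨r, Ideal.subset_span e⟩) g hgG
  obtain ⟨c', hc'⟩ := lemT hM hf hS hG hW.rad w fun b => ⟨h.wm b, hw0 b, fun u hu => by
    rw [hA]
    exact ch_le_cl (div_mem_ch hu)⟩
  let M : Mod N := ⟨ι, J, fι, fJ, Classical.decEq J, Sy, a, k, v⟩
  have hcov : ∀ V, Ov V → ∃ b, M.In b V := fun V hV => by
    obtain ⟨b, hb⟩ := h.cov V hV
    exact ⟨b, fun x hx => hb x (hA b ▸ hx)⟩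
  refine ⟨M, ⟨hS.hr, fun b => (hG b).et, fun b => (hG b).pol, fun b => exU (ha2 b), fun b => ?_,
    fun j => ?_, hcov, fun b j hj => ⟨(hS.dv b j hj).le, (hS.dv b j hj).one, (hS.dv b j hj).div⟩,
    hS.ne, hS.inj, amp M hA hcov h.wm hw0 h.tm h.t0 hc'⟩, c, gens M hcov hgG hc⟩
  · have e : (Matrix.of fun l i => Sy.D b i (Sy.r l)).det = jac (Sy.D b) := by
      rw [hS.hr]
      rfl
    obtain ⟨U, h1, h2⟩ := exU (hk b)
    exact ⟨U, h1, e.trans h2⟩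
  · obtain ⟨_, e⟩ := ha1 j
    have h1 := hS.pos j
    rw [← e] at h1
    exact Int.natCast_pos.1 h1

end Pool.Agent.MP_ee8c61_ag.M3B1
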