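import Pool.Agent.MP_ee8c61_ag.M3B1.Basic

/-! Divisors of powers of the polynomial are monomial; Jacobian determinants of charts. -/

namespace Pool.Agent.MP_ee8c61_ag.M3B1

open MvPolynomial Set Filter
open Pool.Agent.MP_96693b_ag.RS (Der)
open M3 (Po KK ip Vl Ov Un)

namespace Jac

theorem mono_aux {R ι : Type} [CommRing R] [IsDomain R] (p : ι → R) (n : ι → ℕ) (S : Finset ι)
    (hp : ∀ l ∈ S, Prime (p l)) : ∀ x y a : R, x * y = a * ∏ l ∈ S, p l ^ n l →
      ∃ (b c : R) (e : ι → ℕ), a = b * c ∧ x = b * ∏ l ∈ S, p l ^ e l := by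
  classical
  induction S using Finset.induction with
  | empty => exact fun x y a h => ⟨x, y, n, by simpa using h.symm, by simp⟩
  | insert i s his ih =>
    intro x y a h
    rw [Finset.prod_insert his, mul_comm (p i ^ n i), ← mul_assoc] at h
    obtain ⟨j, _, b, c, -, h1, h2, -⟩ :=
      mul_eq_mul_prime_pow (hp i (Finset.mem_insert_self _ _)) h
    obtain ⟨b', c', e, h3, h4⟩ :=
      ih (fun l hl => hp l (Finset.mem_insert_of_mem hl)) b c a h1.symm
    refine ⟨b', c', Function.update e i j, h3, ?_⟩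
    have h5 : ∏ l ∈ s, p l ^ Function.update e i j l = ∏ l ∈ s, p l ^ e l :=
      Finset.prod_congr rfl fun l hl => by
        rw [Function.update_of_ne (by rintro rfl; exact his hl)]
    rw [Finset.prod_insert his, Function.update_self, h5, h2, h4]
    ring

theorem det_mem {K σ n : Type} [CommRing K] [SetLike σ K] [SubringClass σ K] [Fintype n]
    [DecidableEq n] (B : σ) (M : Matrix n n K) (h : ∀ i j, M i j ∈ B) : M.det ∈ B := by
  rw [Matrix.det_apply']
  exact sum_mem fun s _ => mul_mem (intCast_mem B _) (prod_mem fun i _ => h _ _)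

variable {N : ℕ}

/-- The chain rule for determinants. -/
theorem det_chain (D : Fin N → Der (KK N)) (z : Fin N → KK N) :
    (Matrix.of fun m l => pd N l (z m)).det * jac D = (Matrix.of fun m i => D i (z m)).det := by
  rw [jac, ← Matrix.det_mul]
  refine congrArg _ (Matrix.ext fun m i => ?_)
  rw [Matrix.mul_apply, Matrix.of_apply, chain (D i) (z m)]
  exact Finset.sum_congr rfl fun l _ => mul_comm _ _

theorem det_dual {D : Fin N → Der (KK N)} {z : Fin N → KK N}
    (h : ∀ l m, D l (z m) = if l = m then 1 else 0) :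
    (Matrix.of fun m l => pd N l (z m)).det * jac D = 1 := by
  rw [det_chain]
  have : (Matrix.of fun m i => D i (z m)) = 1 := Matrix.ext fun m i => by
    rw [Matrix.of_apply, h, Matrix.one_apply]
    exact if_congr eq_comm rfl rfl
  rw [this, Matrix.det_one]

theorem jac_div {D D' : Fin N → Der (KK N)} {z' : Fin N → KK N}
    (h : ∀ l m, D' l (z' m) = if l = m then 1 else 0) :
    jac D / jac D' = (Matrix.of fun m i => D i (z' m)).det := by
  rw [← det_chain, div_eq_mul_inv, ← eq_inv_of_mul_eq_one_left (det_dual h), mul_comm]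

/-- Derivatives of elements of a chart have a power of the generator as a denominator. -/
theorem pd_den {W : Set (Po N)} {w : Po N} {t x : KK N} (h0 : w ≠ 0) (ht : t ∈ ch W w)
    (hx : x ∈ cl W w t) : ∀ᶠ e : ℕ in atTop, ∀ i, ip N w ^ e * pd N i x ∈ cl W w t := by
  have hp : ∀ p, ip N p ∈ cl W w t := fun p => ch_le_cl (ip_mem_ch p)
  let A : Subalgebra ℂ (KK N) :=
    { carrier := {x | x ∈ cl W w t ∧
        ∀ᶠ e : ℕ in atTop, ∀ i, ip N w ^ e * pd N i x ∈ cl W w t}
      mul_mem' := fun {a b} ha hb => ⟨mul_mem ha.1 hb.1, by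
        filter_upwards [ha.2, hb.2] with e h1 h2 i
        rw [Derivation.leibniz, smul_eq_mul, smul_eq_mul, mul_add, mul_left_comm,
          mul_left_comm _ b]
        exact add_mem (mul_mem ha.1 (h2 i)) (mul_mem hb.1 (h1 i))⟩
      add_mem' := fun {a b} ha hb => ⟨add_mem ha.1 hb.1, by
        filter_upwards [ha.2, hb.2] with e h1 h2 i
        rw [map_add, mul_add]
        exact add_mem (h1 i) (h2 i)⟩
      algebraMap_mem' := fun c => ⟨Subalgebra.algebraMap_mem _ c, Eventually.of_forall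
        fun e i => by rw [Derivation.map_algebraMap, mul_zero]; exact zero_mem _⟩ }
  have h1 : ch W w ≤ A := (ch_le (A := A)).2
    ⟨fun p => ⟨hp p, Eventually.of_forall fun e i => by
        rw [pd_ip]; exact mul_mem (pow_mem (hp w) e) (hp _)⟩,
      fun v hv => ⟨ch_le_cl (div_mem_ch hv), by
        filter_upwards [eventually_ge_atTop 2] with e he i
        obtain ⟨k, rfl⟩ := Nat.exists_eq_add_of_le' he
        have e1 : ip N w ^ (k + 2) * pd N i (ip N v / ip N w) = ip N w ^ k *
            (ip N w * ip N (pderiv i v) - ip N v * ip N (pderiv i w)) := by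
          have hw := ip_ne h0
          rw [Derivation.leibniz_div, pd_ip, pd_ip]
          simp only [smul_eq_mul]
          field_simp
          ring
        rw [e1]
        exact mul_mem (pow_mem (hp w) k)
          (sub_mem (mul_mem (hp _) (hp _)) (mul_mem (hp _) (hp _)))⟩⟩
  refine ((cl_le (A := A)).2 ⟨h1, inv_mem_cl, ?_⟩ hx).2
  filter_upwards [(h1 ht).2] with e he i
  rw [Derivation.leibniz_inv, smul_eq_mul, mul_left_comm]
  exact mul_mem (neg_mem (pow_mem inv_mem_cl 2)) (he i)

end Jac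

open Jac

theorem rowMONO : RowMONO := by
  intro N f B z D S h g ⟨hg, m, y, hy, e⟩
  obtain ⟨u, a, ⟨hu0, hu, hui⟩, -, hf⟩ := h.mon
  have e1 : (⟨g, hg⟩ : B) * ⟨y, hy⟩ =
      (⟨u, hu⟩ : B) ^ m * ∏ l ∈ S, (⟨z l, h.zm l⟩ : B) ^ (a l * m) := by
    apply Subtype.ext
    push_cast
    rw [← e, hf, mul_pow, ← Finset.prod_pow]
    simp only [pow_mul]
  obtain ⟨b, c, k, h1, h2⟩ := mono_aux _ _ S h.prime _ _ _ e1
  have h3 : u ^ m = (b : KK N) * c := by simpa using congrArg Subtype.val h1
  have hb : (b : KK N) ≠ 0 := fun h0 => pow_ne_zero m hu0 (by rw [h3, h0, zero_mul])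
  refine ⟨b, k, ⟨hb, b.2, ?_⟩, by simpa using congrArg Subtype.val h2⟩
  have h4 : (b : KK N)⁻¹ = c * u⁻¹ ^ m := by
    rw [inv_pow, eq_mul_inv_iff_mul_eq₀ (pow_ne_zero m hu0), h3, inv_mul_cancel_left₀ hb]
  rw [h4]
  exact mul_mem c.2 (pow_mem hui m)

theorem rowJAC : RowJAC := by
  intro N f W w t z D S hG hw ht h
  have h0 : w ≠ 0 := fun e => hG.nz (e ▸ hw)
  obtain ⟨-, m, y, hy, e⟩ := dv_of_rad h.pol hG.rad h0 fun g' hg' => ch_le_cl (div_mem_ch hg')
  obtain ⟨k, hk⟩ := (eventually_all.2 fun m => pd_den h0 ht (h.zm m)).exists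
  have h1 := det_mem (cl W w t) (ip N w ^ k • Matrix.of fun m l => pd N l (z m))
    fun m l => hk m l
  rw [Matrix.det_smul, Fintype.card_fin] at h1
  refine ⟨det_mem _ _ fun l i => h.pres i _ (h.pol _), m * (k * N), _,
    mul_mem h1 (pow_mem hy (k * N)), ?_⟩
  have h2 := det_dual h.dual
  rw [pow_mul, e, mul_pow, ← pow_mul]
  linear_combination (-(ip N w ^ (k * N) * y ^ (k * N))) * h2

theorem rowKIN : RowKIN := by
  intro N V z z' D D' h h' h1 h2
  have a : jac D ≠ 0 := right_ne_zero_of_mul_eq_one (det_dual h)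
  have b : jac D' ≠ 0 := right_ne_zero_of_mul_eq_one (det_dual h')
  refine ⟨div_ne_zero a b, ?_, ?_⟩
  · rw [jac_div h']
    exact det_mem V _ fun m i => h1 i m
  · rw [inv_div, jac_div h]
    exact det_mem V _ fun m i => h2 i m

end Pool.Agent.MP_ee8c61_ag.M3B1
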