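import Pool.Agent.MP_ee8c61_ag.M3B1.Basic

/-! Good affine charts around a closed point of the blow-up. -/

namespace Pool.Agent.MP_ee8c61_ag.M3B1

open MvPolynomial Set
open Pool.Agent.MP_96693b_ag.RS (Loc Chart IsCrd LocOf Der)
open M3 (Po KK ip)

namespace RLOC

variable {N : ℕ} {W : Set (Po N)} {w : Po N} {L : Loc (KK N)} {t s x z : KK N}

theorem cl_mono (hs : s ∈ ch W w) (h0 : s ≠ 0) : cl W w t ≤ cl W w (t * s) := by
  refine cl_le.2 ⟨ch_le_cl, ?_⟩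
  have e : t⁻¹ = s * (t * s)⁻¹ := by
    rw [mul_inv, mul_left_comm, mul_inv_cancel₀ h0, mul_one]
  rw [e]
  exact mul_mem (ch_le_cl hs) inv_mem_cl

theorem cl_le_O (hL : LocOf (ch W w) L) (ht : t ∈ ch W w) (h0 : L.ev t ≠ 0) : cl W w t ≤ L.O :=
  cl_le.2 ⟨hL.le, L.inv_mem t (hL.le ht) h0⟩

theorem ev_mul_ne (hL : LocOf (ch W w) L) (ht : t ∈ ch W w) (hs : s ∈ ch W w) (h0 : L.ev t ≠ 0)
    (h1 : L.ev s ≠ 0) : L.ev (t * s) ≠ 0 := by
  rw [L.ev_mul _ (hL.le ht) _ (hL.le hs)]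
  exact mul_ne_zero h0 h1

/-- `P` holds for the rings of all small basic neighbourhoods of the point. -/
def Ev (W : Set (Po N)) (w : Po N) (L : Loc (KK N)) (P : Subalgebra ℂ (KK N) → Prop) : Prop :=
  ∃ t ∈ ch W w, L.ev t ≠ 0 ∧ ∀ B, cl W w t ≤ B → P B

variable {P Q : Subalgebra ℂ (KK N) → Prop}

theorem Ev.mono (h : Ev W w L P) (hq : ∀ B, ch W w ≤ B → P B → Q B) : Ev W w L Q :=
  let ⟨t, ht, h0, h⟩ := h
  ⟨t, ht, h0, fun B hB => hq B (ch_le_cl.trans hB) (h B hB)⟩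

theorem Ev.and (hL : LocOf (ch W w) L) (h : Ev W w L P) (h' : Ev W w L Q) :
    Ev W w L fun B => P B ∧ Q B := by
  obtain ⟨t, ht, h0, h⟩ := h
  obtain ⟨s, hs, h1, h'⟩ := h'
  refine ⟨t * s, mul_mem ht hs, ev_mul_ne hL ht hs h0 h1, fun B hB =>
    ⟨h B ((cl_mono hs (Loc.ne_zero_of_ev h1)).trans hB), h' B ?_⟩⟩
  rw [mul_comm] at hB
  exact (cl_mono ht (Loc.ne_zero_of_ev h0)).trans hB

theorem ev_all (hL : LocOf (ch W w) L) {ι : Type} {T : Set ι} (hT : T.Finite)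
    {R : ι → Subalgebra ℂ (KK N) → Prop} (h : ∀ i ∈ T, Ev W w L (R i)) :
    Ev W w L fun B => ∀ i ∈ T, R i B := by
  induction T, hT using Set.Finite.induction_on with
  | empty => exact ⟨1, one_mem _, by simp [Loc.ev_one], fun _ _ _ hi => hi.elim⟩
  | insert _ _ ih =>
    refine (Ev.and hL (h _ (mem_insert _ _)) (ih fun i hi => h i (mem_insert_of_mem _ hi))).mono
      fun B _ hB i hi => ?_
    rcases hi with rfl | hi
    exacts [hB.1, hB.2 i hi]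

theorem ev_fin (hL : LocOf (ch W w) L) {R : Fin N → Subalgebra ℂ (KK N) → Prop}
    (h : ∀ i, Ev W w L (R i)) : Ev W w L fun B => ∀ i, R i B :=
  (ev_all hL finite_univ fun i _ => h i).mono fun _ _ hB i => hB i (mem_univ i)

theorem ev_mem (hL : LocOf (ch W w) L) (hx : x ∈ L.O) : Ev W w L fun B => x ∈ B := by
  obtain ⟨p, hp, q, hq, h0, e⟩ := hL.frac x hx
  refine ⟨q, hq, h0, fun B hB => hB ?_⟩
  rw [(eq_mul_inv_iff_mul_eq₀ (Loc.ne_zero_of_ev h0)).2 e]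
  exact mul_mem (ch_le_cl hp) inv_mem_cl

theorem ev_der (hL : LocOf (ch W w) L) (hW : W.Finite) {δ : Der (KK N)}
    (hδ : ∀ f ∈ L.O, δ f ∈ L.O) : Ev W w L fun B => ∀ p ∈ ch W w, δ p ∈ B := by
  obtain ⟨T, hT, e⟩ := Subalgebra.fg_def.1 (ch_fg (w := w) hW)
  refine (ev_all hL hT (R := fun y B => δ y ∈ B) fun y hy =>
    ev_mem hL (hδ y (hL.le (e ▸ Algebra.subset_adjoin hy)))).mono fun B hB h p hp => ?_
  rw [← e] at hp hB
  induction hp using Algebra.adjoin_induction with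
  | mem y hy => exact h y hy
  | algebraMap r => rw [Derivation.map_algebraMap]; exact zero_mem _
  | add y y' _ _ hy hy' => rw [map_add]; exact add_mem hy hy'
  | mul y y' h1 h2 hy hy' =>
    rw [Derivation.leibniz, smul_eq_mul, smul_eq_mul]
    exact add_mem (mul_mem (hB h1) hy') (mul_mem (hB h2) hy)

theorem ev_div (hL : LocOf (ch W w) L) (hW : W.Finite) (z : KK N) :
    Ev W w L fun B => ∀ p ∈ ch W w, p ∈ L.span {z} → p / z ∈ B := by
  have : IsNoetherianRing (ch W w) := isNoetherianRing_of_fg (ch_fg hW)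
  obtain ⟨T, hT, e⟩ := Submodule.fg_def.1
    (IsNoetherian.noetherian (Loc.trace (L.span {z}) hL.le))
  refine (ev_all hL hT (R := fun y B => (y : KK N) / z ∈ B) fun y hy => ev_mem hL ?_).mono
    fun B hB h p hp hp' => ?_
  · have h1 : y ∈ Loc.trace (L.span {z}) hL.le := e ▸ Submodule.subset_span hy
    obtain ⟨a, ha, e1⟩ := Loc.mem_span_singleton.1 h1
    rw [e1]
    by_cases h0 : z = 0
    · rw [h0, div_zero]; exact zero_mem _
    · rwa [mul_div_cancel_right₀ _ h0]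
  · have key : ∀ y ∈ Submodule.span (ch W w) T, (y : KK N) / z ∈ B := fun y hy => by
      induction hy using Submodule.span_induction with
      | mem y hy => exact h y hy
      | zero => simp
      | add y y' _ _ hy hy' => rw [Subalgebra.coe_add, add_div]; exact add_mem hy hy'
      | smul r y _ hy =>
        rw [smul_eq_mul, Subalgebra.coe_mul, mul_div_assoc]; exact mul_mem (hB r.2) hy
    exact key ⟨p, hp⟩ (e ▸ hp')

theorem der_cl (ht : t ∈ ch W w) (h0 : t ≠ 0) {δ : Der (KK N)}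
    (h : ∀ p ∈ ch W w, δ p ∈ cl W w t) (hx : x ∈ cl W w t) : δ x ∈ cl W w t := by
  obtain ⟨e, he⟩ := exists_pow_cl ht h0 hx
  have e1 : δ x = (δ (t ^ e * x) - x * δ (t ^ e)) * t⁻¹ ^ e := by
    rw [Derivation.leibniz, smul_eq_mul, smul_eq_mul, add_sub_cancel_right, mul_right_comm,
      ← mul_pow, mul_inv_cancel₀ h0, one_pow, one_mul]
  rw [e1]
  exact mul_mem (sub_mem (h _ he) (mul_mem hx (h _ (pow_mem ht e)))) (pow_mem inv_mem_cl e)

theorem div_cl (hL : LocOf (ch W w) L) (ht : t ∈ ch W w) (h0 : t ≠ 0)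
    (h : ∀ p ∈ ch W w, p ∈ L.span {z} → p / z ∈ cl W w t) (hx : x ∈ cl W w t)
    (hz : x ∈ L.span {z}) : x / z ∈ cl W w t := by
  obtain ⟨e, he⟩ := exists_pow_cl ht h0 hx
  have e1 : x / z = t ^ e * x / z * t⁻¹ ^ e := by
    rw [mul_div_assoc, mul_right_comm, ← mul_pow, mul_inv_cancel₀ h0, one_pow, one_mul]
  rw [e1]
  exact mul_mem (h _ he (Loc.mul_mem_left (hL.le (pow_mem ht e)) hz)) (pow_mem inv_mem_cl e)

variable {κ : Chart (KK N) N}

theorem x_m (hκ : IsCrd L κ) (l : Fin N) : κ.x l ∈ L.m := hκ.span ▸ Loc.subset_span ⟨l, rfl⟩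

theorem x_ne (hκ : IsCrd L κ) (l : Fin N) : κ.x l ≠ 0 := fun e => by
  have := hκ.dual l l
  rw [e, map_zero, if_pos rfl] at this
  exact zero_ne_one this

theorem prime_of (hκ : IsCrd L κ) {B : Subalgebra ℂ (KK N)} (hB : B ≤ L.O) {l : Fin N}
    (hz : κ.x l ∈ B) (h : ∀ x ∈ B, x ∈ L.span {κ.x l} → x / κ.x l ∈ B) :
    Prime (⟨κ.x l, hz⟩ : B) := by
  have key : ∀ a : B, (⟨κ.x l, hz⟩ : B) ∣ a ↔ (a : KK N) ∈ κ.I L {l} := fun a => by
    rw [Chart.I_singleton]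
    constructor
    · rintro ⟨c, rfl⟩
      exact Loc.mem_span_singleton.2 ⟨c, hB c.2, mul_comm _ _⟩
    · exact fun ha => ⟨⟨_, h a a.2 ha⟩, Subtype.ext (mul_div_cancel₀ _ (x_ne hκ l)).symm⟩
  refine ⟨fun e => x_ne hκ l (congrArg Subtype.val e), fun hu => ?_, fun a b hab => ?_⟩
  · exact Loc.one_notMem_m (hκ.I_le_m ((key 1).1 hu.dvd))
  · rw [key] at hab ⊢
    rw [key]
    exact hκ.prime (hB a.2) (hB b.2) hab

/-- Evaluation at the point. -/
noncomputable def evB {B : Subalgebra ℂ (KK N)} (hB : B ≤ L.O) : B →ₐ[ℂ] ℂ where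
  toFun x := L.ev x
  map_one' := Loc.ev_one
  map_mul' x y := L.ev_mul _ (hB x.2) _ (hB y.2)
  map_zero' := Loc.ev_zero
  map_add' x y := L.ev_add _ (hB x.2) _ (hB y.2)
  commutes' c := L.ev_alg c

/-- The restriction of a derivation. -/
noncomputable def resD {B : Subalgebra ℂ (KK N)} (δ : Der (KK N)) (h : ∀ x ∈ B, δ x ∈ B) : Derivation ℂ B B :=
  Derivation.mk'
    { toFun := fun x => ⟨δ x, h x x.2⟩
      map_add' := fun x y => Subtype.ext (map_add δ (x : KK N) y)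
      map_smul' := fun c x => Subtype.ext (δ.map_smul c (x : KK N)) }
    fun a b => Subtype.ext (δ.leibniz (a : KK N) b)

theorem span_den (hL : LocOf (ch W w) L) (hκ : IsCrd L κ) {B : Subalgebra ℂ (KK N)}
    (hA : ch W w ≤ B) (I : Ideal B) (hI : ∀ l, ∃ y ∈ I, (y : KK N) = κ.x l) (hx : x ∈ L.m) :
    ∃ s ∈ ch W w, L.ev s ≠ 0 ∧ ∃ y ∈ I, (y : KK N) = s * x := by
  rw [← hκ.span] at hx
  refine Loc.span_induction
    (p := fun x => ∃ s ∈ ch W w, L.ev s ≠ 0 ∧ ∃ y ∈ I, (y : KK N) = s * x) hx ?_ ?_ ?_ ?_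
  · rintro _ ⟨l, rfl⟩
    obtain ⟨y, hy, e⟩ := hI l
    exact ⟨1, one_mem _, by simp [Loc.ev_one], y, hy, by rw [e, one_mul]⟩
  · exact ⟨1, one_mem _, by simp [Loc.ev_one], 0, zero_mem _, by simp⟩
  · rintro a b - - ⟨s, hs, h0, y, hy, e⟩ ⟨s', hs', h1, y', hy', e'⟩
    refine ⟨s * s', mul_mem hs hs', ev_mul_ne hL hs hs' h0 h1,
      ⟨s', hA hs'⟩ * y + ⟨s, hA hs⟩ * y', add_mem (I.mul_mem_left _ hy) (I.mul_mem_left _ hy'), ?_⟩
    show s' * (y : KK N) + s * (y' : KK N) = _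
    rw [e, e']
    ring
  · rintro a ha b - ⟨s, hs, h0, y, hy, e⟩
    obtain ⟨p, hp, q, hq, h1, e'⟩ := hL.frac a ha
    refine ⟨s * q, mul_mem hs hq, ev_mul_ne hL hs hq h0 h1, ⟨p, hA hp⟩ * y,
      I.mul_mem_left _ hy, ?_⟩
    show p * (y : KK N) = _
    rw [e, ← e']
    ring

theorem etale_tr {A R S : Type} [CommRing A] [CommRing R] [CommRing S] [Algebra R S] (r : R)
    [IsLocalization.Away r S] (φ : A →+* R)
    (h : ((algebraMap R (Localization.Away r)).comp φ).Etale) :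
    ((algebraMap R S).comp φ).Etale := by
  let E := IsLocalization.algEquiv (Submonoid.powers r) (Localization.Away r) S
  have e2 : (algebraMap R S).comp φ =
      E.toRingEquiv.toRingHom.comp ((algebraMap R (Localization.Away r)).comp φ) :=
    RingHom.ext fun p => (E.commutes (φ p)).symm
  rw [e2]
  exact RingHom.Etale.stableUnderComposition _ _ h
    (RingHom.Etale.of_bijective (f := E.toRingEquiv.toRingHom) E.bijective)

theorem etale_sub {K : Type} [Field K] [Algebra ℂ K] {n : ℕ} {B B' : Subalgebra ℂ K}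
    (hle : B ≤ B') (r : B) (hr : (r : K) ≠ 0) (hi : (r : K)⁻¹ ∈ B')
    (hs : ∀ y ∈ B', ∃ k : ℕ, y * (r : K) ^ k ∈ B) {z : Fin n → K} (hz : ∀ l, z l ∈ B)
    (hz' : ∀ l, z l ∈ B')
    (h : ((algebraMap B (Localization.Away r)).comp
      (aeval (R := ℂ) fun l => (⟨z l, hz l⟩ : B)).toRingHom).Etale) :
    (aeval fun l => (⟨z l, hz' l⟩ : B') : MvPolynomial (Fin n) ℂ →ₐ[ℂ] B').toRingHom.Etale := by
  let _ : Algebra B B' := (Subalgebra.inclusion hle).toRingHom.toAlgebra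
  have : IsLocalization.Away r B' := by
    refine IsLocalization.Away.mk r ?_ (fun y => ?_) fun a b hab => ⟨0, ?_⟩
    · exact IsUnit.of_mul_eq_one ⟨_, hi⟩ (Subtype.ext (mul_inv_cancel₀ hr))
    · obtain ⟨k, hk⟩ := hs y y.2
      exact ⟨k, ⟨_, hk⟩, Subtype.ext rfl⟩
    · rw [Subalgebra.inclusion_injective hle hab]
  have e2 : (aeval fun l => (⟨z l, hz' l⟩ : B') : MvPolynomial (Fin n) ℂ →ₐ[ℂ] B').toRingHom =
      (algebraMap B B').comp (aeval (R := ℂ) fun l => (⟨z l, hz l⟩ : B)).toRingHom :=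
    RingHom.ext fun p =>
      (comp_aeval_apply (fun l => (⟨z l, hz l⟩ : B)) (Subalgebra.inclusion hle) p).symm
  rw [e2]
  exact etale_tr r _ h

theorem inv_cl {r : KK N} (ht : t ∈ ch W w) (h0 : t ≠ 0) (e : ℕ) :
    r⁻¹ ∈ cl W w (t * (t ^ e * r)) := by
  have e1 : r⁻¹ = t * t ^ e * (t * (t ^ e * r))⁻¹ := by
    rw [← mul_assoc, mul_inv, mul_inv_cancel_left₀ (mul_ne_zero h0 (pow_ne_zero e h0))]
  rw [e1]
  exact mul_mem (ch_le_cl (mul_mem ht (pow_mem ht e))) inv_mem_cl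

theorem pow_cl {r : KK N} (ht : t ∈ ch W w) (h0 : t ≠ 0) {e : ℕ} (he : t ^ e * r ∈ ch W w)
    (hr : r ≠ 0) (hx : x ∈ cl W w (t * (t ^ e * r))) : ∃ k : ℕ, x * r ^ k ∈ cl W w t := by
  obtain ⟨k, hk⟩ := exists_pow_cl (mul_mem ht he)
    (mul_ne_zero h0 (mul_ne_zero (pow_ne_zero e h0) hr)) hx
  have e1 : t * (t ^ e * r) * (t⁻¹ * t⁻¹ ^ e) = r := by
    rw [inv_pow]
    field_simp
  have e2 : x * r ^ k = (t * (t ^ e * r)) ^ k * x * (t⁻¹ * t⁻¹ ^ e) ^ k := by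
    rw [mul_right_comm, ← mul_pow, e1, mul_comm]
  exact ⟨k, e2 ▸ mul_mem (ch_le_cl hk) (pow_mem (mul_mem inv_mem_cl (pow_mem inv_mem_cl e)) k)⟩

end RLOC

open RLOC in
theorem rowLOC : OfLOC := by
  intro hET N f W G hW hP hG w hw L hL
  obtain ⟨κ, hκ, u, a, hu, hf⟩ := hW.mon w hw L hL
  obtain ⟨g, hg, g0, hg'⟩ := hP w hw L hL
  have uO : u ∈ L.O := by_contra fun h => hu (L.ev_out u h)
  obtain ⟨t, ht, h0, H⟩ := Ev.and hL (Ev.and hL (Ev.and hL
    (ev_fin hL fun l => ev_mem hL (x_m hκ l).1)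
    (Ev.and hL (ev_mem hL uO) (ev_mem hL (L.inv_mem u uO hu))))
    (Ev.and hL (ev_fin hL fun l => ev_der hL hW.fin (hκ.pres l))
      (ev_fin hL fun l => ev_div hL hW.fin (κ.x l))))
    (ev_all hL hG (R := fun g' B => ip N g' / ip N g ∈ B) fun g' h => ev_mem hL (hg' g' h))
  have t0 := Loc.ne_zero_of_ev h0
  have hO := cl_le_O hL ht h0
  obtain ⟨⟨⟨hz, -⟩, hD, -⟩, -⟩ := H _ le_rfl
  have : Algebra.FiniteType ℂ (cl W w t) := (Subalgebra.fg_iff_finiteType _).1 (cl_fg hW.fin)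
  obtain ⟨r, hr, het⟩ := hET N (cl W w t) (fun l => ⟨κ.x l, hz l⟩)
    (fun l => resD (κ.D l) fun x hx => der_cl ht t0 (hD l) hx) (evB hO)
    (fun l m => Subtype.ext (by
      show κ.D l (κ.x m) = _
      rw [hκ.dual]
      split_ifs <;> rfl))
    (fun x hx => by
      obtain ⟨s, hs, h1, y, hy, e⟩ := span_den hL hκ (ch_le_cl (t := t))
        (Ideal.span (range fun l => (⟨κ.x l, hz l⟩ : cl W w t) -
          algebraMap ℂ (cl W w t) (evB hO ⟨κ.x l, hz l⟩)))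
        (fun l => ⟨_, Ideal.subset_span ⟨l, rfl⟩, by
          show κ.x l - algebraMap ℂ (KK N) (L.ev (κ.x l)) = _
          rw [(x_m hκ l).2, map_zero, sub_zero]⟩) (x := x) ⟨hO x.2, hx⟩
      exact ⟨⟨s, ch_le_cl hs⟩, h1, (Subtype.ext e : y = ⟨s, ch_le_cl hs⟩ * x) ▸ hy⟩)
  have hr' : L.ev r ≠ 0 := hr
  obtain ⟨e, he⟩ := exists_pow_cl ht t0 r.2
  have h1 : L.ev (t ^ e * r) ≠ 0 := by
    rw [L.ev_mul _ (hL.le (pow_mem ht e)) _ (hO r.2), Loc.ev_pow (hL.le ht)]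
    exact mul_ne_zero (pow_ne_zero e h0) hr'
  have h2 := ev_mul_ne hL ht he h0 h1
  have hm := mul_mem ht he
  have m0 := Loc.ne_zero_of_ev h2
  obtain ⟨⟨⟨hz', hu1, hu2⟩, hD', hv⟩, hG'⟩ := H _ (cl_mono (t := t) he (Loc.ne_zero_of_ev h1))
  refine ⟨t * (t ^ e * r), hm, h2, ⟨κ.x, κ.D, Finset.univ.filter fun l => 0 < a l,
    fun p => ch_le_cl (ip_mem_ch p), hz', fun l x hx => der_cl hm m0 (hD' l) hx, hκ.dual,
    etale_sub (cl_mono he (Loc.ne_zero_of_ev h1)) r (Loc.ne_zero_of_ev hr') (inv_cl ht t0 e)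
      (fun y hy => pow_cl ht t0 he (Loc.ne_zero_of_ev hr') hy) hz hz' het,
    fun l _ => prime_of hκ (cl_le_O hL hm h2) (hz' l) fun x hx => div_cl hL hm m0 (hv l) hx,
    u, a, ⟨Loc.ne_zero_of_ev hu, hu1, hu2⟩, fun l hl => (Finset.mem_filter.1 hl).2, ?_⟩,
    g, hg, g0, hG'⟩
  rw [hf, Finset.prod_filter]
  congr 1
  refine Finset.prod_congr rfl fun l _ => ?_
  split_ifs with h
  · rfl
  · rw [Nat.eq_zero_of_not_pos h, pow_zero]

end Pool.Agent.MP_ee8c61_ag.M3B1
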