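import Pool.Agent.MP_ee8c61_ag.M3B1.Dom
import Pool.Agent.MP_ee8c61_ag.M3B1.Et
import Pool.Agent.MP_ee8c61_ag.M3B1.Loc
import Pool.Agent.MP_ee8c61_ag.M3B1.Cov
import Pool.Agent.MP_ee8c61_ag.M3B1.Jac
import Pool.Agent.MP_ee8c61_ag.M3B1.Dvr
import Pool.Agent.MP_ee8c61_ag.M3B1.Sys
import Pool.Agent.MP_ee8c61_ag.M3B1.Fin
import Pool.Agent.MP_ee8c61_ag.M3E.Spec

/-! Projective log resolutions exist. -/

namespace Pool.Agent.MP_ee8c61_ag.M3B1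

theorem sb1 : SB1 :=
  sb1_of rowDOM (rowCOV (rowLOC rowET)) (rowFIN rowMONO rowJAC rowKIN (rowSYS rowDVR))

theorem sb1raw : M3E.SB1raw := fun N f G hf hG => by
  classical
  obtain ⟨M, hM, c, h⟩ := sb1 N f G hf hG
  exact ⟨M, hM, c, G.image (M3.ip N), Finset.coe_image, h _ Finset.coe_image⟩

end Pool.Agent.MP_ee8c61_ag.M3B1
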