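import Pool.Agent.MP_ee8c61_ag.M3.Mod
import Pool.Agent.MP_96693b_ag.DR.RTow

/-! Existence of projective log resolutions: the statements. -/

namespace Pool.Agent.MP_ee8c61_ag.M3B1

open MvPolynomial Set
open Pool.Agent.MP_96693b_ag.RS (Loc Chart IsCrd LocOf Der Model Twr chA)
open M3 (Po KK ip Vl Ov Un DV Mod Lc)

noncomputable section

variable {N : ℕ}

/-- The homogeneous coordinates of projective space. -/
def U0 (N : ℕ) : Set (KK N) := insert 1 (range fun l => ip N (X l))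

/-- The chart `w` of the blow-up of the ideal generated by `W`. -/
def ch (W : Set (Po N)) (w : Po N) : Subalgebra ℂ (KK N) :=
  Algebra.adjoin ℂ (range (ip N) ∪ (fun v => ip N v / ip N w) '' W)

/-- The part of the chart `w` where `t` is invertible. -/
def cl (W : Set (Po N)) (w : Po N) (t : KK N) : Subalgebra ℂ (KK N) :=
  ch W w ⊔ Algebra.adjoin ℂ {t⁻¹}

/-- `g` is a unit times a monomial in the coordinates. -/
def MonAt (L : Loc (KK N)) (κ : Chart (KK N) N) (g : KK N) : Prop :=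
  ∃ (u : KK N) (a : Fin N → ℕ), L.ev u ≠ 0 ∧ g = u * ∏ l, κ.x l ^ a l

/-- The blow-up of `W` is smooth, an isomorphism off `f = 0`, and `f` is monomial on it. -/
structure Good (f : Po N) (W : Set (Po N)) : Prop where
  fin : W.Finite
  nz : (0 : Po N) ∉ W
  rad : f ∈ (Ideal.span W).radical
  mon : ∀ w ∈ W, ∀ L, LocOf (ch W w) L → ∃ κ, IsCrd L κ ∧ MonAt L κ (ip N f)

/-- The ideal generated by `G` is principal on the blow-up of `W`. -/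
def Prin (W G : Set (Po N)) : Prop :=
  ∀ w ∈ W, ∀ L, LocOf (ch W w) L → ∃ g ∈ G, g ≠ 0 ∧ ∀ g' ∈ G, ip N g' / ip N g ∈ L.O

/-- `u` is a unit of `B`. -/
def Ub (B : Subalgebra ℂ (KK N)) (u : KK N) : Prop := u ≠ 0 ∧ u ∈ B ∧ u⁻¹ ∈ B

/-- `g` is a unit of `B` times a monomial. -/
def MonB (B : Subalgebra ℂ (KK N)) (z : Fin N → KK N) (S : Finset (Fin N)) (g : KK N) : Prop :=
  ∃ (u : KK N) (c : Fin N → ℕ), Ub B u ∧ g = u * ∏ l ∈ S, z l ^ c l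

/-- `g` divides a power of `f` in `B`. -/
def Dv (B : Subalgebra ℂ (KK N)) (f : Po N) (g : KK N) : Prop :=
  g ∈ B ∧ ∃ m : ℕ, ∃ h ∈ B, ip N f ^ m = g * h

/-- The Jacobian determinant. -/
def jac (D : Fin N → Der (KK N)) : KK N := (Matrix.of fun l i => D i (ip N (X l))).det

/-- A good affine chart. -/
structure GC (f : Po N) (B : Subalgebra ℂ (KK N)) (z : Fin N → KK N) (D : Fin N → Der (KK N))
    (S : Finset (Fin N)) : Prop where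
  pol : ∀ p, ip N p ∈ B
  zm : ∀ l, z l ∈ B
  pres : ∀ l, ∀ x ∈ B, D l x ∈ B
  dual : ∀ l m, D l (z m) = if l = m then 1 else 0
  et : (aeval fun l => (⟨z l, zm l⟩ : B) : Po N →ₐ[ℂ] B).toRingHom.Etale
  prime : ∀ l ∈ S, Prime (⟨z l, zm l⟩ : B)
  mon : ∃ (u : KK N) (a : Fin N → ℕ), Ub B u ∧ (∀ l ∈ S, 0 < a l) ∧
    ip N f = u * ∏ l ∈ S, z l ^ a l

/-- A finite cover by good charts. -/
structure Atl (f : Po N) (W G : Set (Po N)) {ι : Type} (w : ι → Po N) (t : ι → KK N)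
    (z : ι → Fin N → KK N) (D : ι → Fin N → Der (KK N)) (S : ι → Finset (Fin N))
    (g : ι → Po N) : Prop where
  wm : ∀ b, w b ∈ W
  tm : ∀ b, t b ∈ ch W (w b)
  t0 : ∀ b, t b ≠ 0
  gc : ∀ b, GC f (cl W (w b) (t b)) (z b) (D b) (S b)
  gm : ∀ b, g b ∈ G ∧ g b ≠ 0 ∧ ∀ g' ∈ G, ip N g' / ip N (g b) ∈ cl W (w b) (t b)
  cov : ∀ V : Vl N, Ov V → ∃ b, ∀ x ∈ cl W (w b) (t b), x ∈ V

/-- `d` is the order along the prime element `z` of `B`. -/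
structure IsDV {K : Type} [Field K] [Algebra ℂ K] (B : Subalgebra ℂ K) (z : K) (d : DV K) :
    Prop where
  le : ∀ g ∈ B, g ∈ d.O
  one : d.v z = 1
  div : ∀ g ∈ B, g ∈ d.F 1 → g * z⁻¹ ∈ B
  loc : ∀ x ∈ d.O, Lc B d.O x

/-- The system `Sy` is made of the charts `A`, and the `v j` are its divisors. -/
structure IsSys (f : Po N) {ι J : Type} [Fintype J] (A : ι → Subalgebra ℂ (KK N))
    (z : ι → Fin N → KK N) (D : ι → Fin N → Der (KK N)) (S : ι → Finset (Fin N))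
    (Sy : H59.Sys ℂ (KK N) ι J N) (v : J → DV (KK N)) : Prop where
  hr : Sy.r = fun l => ip N (X l)
  hA : Sy.A = A
  hz : Sy.z = z
  hD : Sy.D = D
  pos : ∀ j, 0 < (v j).v (ip N f)
  dv : ∀ b j, (Sy.η b j : KK N)⁻¹ ∉ A b → IsDV (A b) (Sy.η b j : KK N) (v j)
  ne : ∀ j, ∃ b, (Sy.η b j : KK N)⁻¹ ∉ A b
  inj : ∀ j j', (v j).O = (v j').O → j = j'
  mon : ∀ b g, MonB (A b) (z b) (S b) g →
    Ub (A b) (g * ((Sy.mon b fun j => -(v j).v g : (KK N)ˣ) : KK N))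

/-! ### Rows -/

def RowP0 : Prop := ∀ N : ℕ, ∃ M : Model (KK N) N, M.U = U0 N

def RowTW : Prop := ∀ (K : Type) [Field K] [Algebra ℂ K] (n : ℕ) (M M' : Model K n) (B : Set M.P),
  Twr M B M' → ∃ (W : Set K) (d : ℕ), W.Finite ∧ (∀ w ∈ W, w ∈ Submodule.span ℂ M.U ^ d) ∧
    M'.U = image2 (· * ·) M.U W ∧ ∀ b ∉ B, ∀ u ∈ M.U, u ≠ 0 → chA M.U u ≤ (M.loc b).O →
      ∃ w ∈ W, (M.loc b).ev (w / u ^ d) ≠ 0

def RowDOM : Prop := ∀ (N : ℕ) (f : Po N) (G : Set (Po N)), f ≠ 0 → G.Finite →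
  f ∈ (Ideal.span G).radical → ∃ W, Good f W ∧ Prin W G

def RowET : Prop := ∀ (n : ℕ) (B : Type) [CommRing B] [Algebra ℂ B] [Algebra.FiniteType ℂ B]
  (z : Fin n → B) (D : Fin n → Derivation ℂ B B) (φ : B →ₐ[ℂ] ℂ),
  (∀ l m, D l (z m) = if l = m then 1 else 0) →
  (∀ x, φ x = 0 → ∃ s, φ s ≠ 0 ∧
    s * x ∈ Ideal.span (range fun l => z l - algebraMap ℂ B (φ (z l)))) →
  ∃ t : B, φ t ≠ 0 ∧
    ((algebraMap B (Localization.Away t)).comp (aeval (R := ℂ) z).toRingHom).Etale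

def RowLOC : Prop := ∀ (N : ℕ) (f : Po N) (W G : Set (Po N)), Good f W → Prin W G → G.Finite →
  ∀ w ∈ W, ∀ L, LocOf (ch W w) L → ∃ t ∈ ch W w, L.ev t ≠ 0 ∧
    (∃ z D S, GC f (cl W w t) z D S) ∧ ∃ g ∈ G, g ≠ 0 ∧ ∀ g' ∈ G, ip N g' / ip N g ∈ cl W w t

def RowCOV : Prop := ∀ (N : ℕ) (f : Po N) (W G : Set (Po N)), f ≠ 0 → Good f W → Prin W G →
  G.Finite → ∃ (ι : Type) (_ : Fintype ι) (w : ι → Po N) (t : ι → KK N) (z : ι → Fin N → KK N)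
    (D : ι → Fin N → Der (KK N)) (S : ι → Finset (Fin N)) (g : ι → Po N), Atl f W G w t z D S g

def RowMONO : Prop := ∀ (N : ℕ) (f : Po N) (B : Subalgebra ℂ (KK N)) z D S, GC f B z D S →
  ∀ g, Dv B f g → MonB B z S g

def RowJAC : Prop := ∀ (N : ℕ) (f : Po N) (W : Set (Po N)) (w : Po N) (t : KK N) z D S,
  Good f W → w ∈ W → t ∈ ch W w → GC f (cl W w t) z D S → Dv (cl W w t) f (jac D)

def RowKIN : Prop := ∀ (N : ℕ) (V : Vl N) (z z' : Fin N → KK N) (D D' : Fin N → Der (KK N)),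
  (∀ l m, D l (z m) = if l = m then 1 else 0) → (∀ l m, D' l (z' m) = if l = m then 1 else 0) →
  (∀ l m, D l (z' m) ∈ V) → (∀ l m, D' l (z m) ∈ V) → Un V (jac D / jac D')

def RowDVR : Prop := ∀ (K : Type) [Field K] [Algebra ℂ K] (B : Subalgebra ℂ K) (z : K) (hz : z ∈ B),
  IsNoetherianRing B → (∀ x : K, ∃ s ∈ B, s ≠ 0 ∧ s * x ∈ B) → Prime (⟨z, hz⟩ : B) →
  ∃ d, IsDV B z d

def RowSYS : Prop := ∀ (N : ℕ) (f : Po N) (ι : Type) [Fintype ι] (A : ι → Subalgebra ℂ (KK N))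
  (z : ι → Fin N → KK N) (D : ι → Fin N → Der (KK N)) (S : ι → Finset (Fin N)), f ≠ 0 →
  (∀ b, GC f (A b) (z b) (D b) (S b)) →
  (∀ a b, ∀ g ∈ A b, ∃ u, u ≠ 0 ∧ u ∈ A a ∧ u⁻¹ ∈ A a ⊔ A b ∧ u * g ∈ A a) →
  ∃ (J : Type) (_ : Fintype J) (Sy : H59.Sys ℂ (KK N) ι J N) (v : J → DV (KK N)),
    IsSys f A z D S Sy v

def RowFIN : Prop := ∀ (N : ℕ) (f : Po N) (W : Set (Po N)) (G : Finset (Po N)) (ι : Type)
  [Fintype ι] (w : ι → Po N) (t : ι → KK N) (z : ι → Fin N → KK N) (D : ι → Fin N → Der (KK N))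
  (S : ι → Finset (Fin N)) (g : ι → Po N), f ≠ 0 → (∃ r, f ^ r ∈ G) → Good f W →
  Atl f W G w t z D S g → ∃ M : Mod N, M.OK f ∧ ∃ c, ∀ T : Finset (KK N),
    (T : Set (KK N)) = ip N '' G → M.Gens c T

/-- The output of the block. -/
def SB1 : Prop := ∀ (N : ℕ) (f : Po N) (G : Finset (Po N)), f ≠ 0 → (∃ r, f ^ r ∈ G) →
  ∃ M : Mod N, M.OK f ∧ ∃ c, ∀ T : Finset (KK N), (T : Set (KK N)) = ip N '' G → M.Gens c T

def OfLOC : Prop := RowET → RowLOC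
def OfCOV : Prop := RowLOC → RowCOV
def OfSYS : Prop := RowDVR → RowSYS
def OfFIN : Prop := RowMONO → RowJAC → RowKIN → RowSYS → RowFIN

theorem sb1_of (h1 : RowDOM) (h2 : RowCOV) (h3 : RowFIN) : SB1 := by
  intro N f G hf hr
  obtain ⟨W, hW, hP⟩ := h1 N f G hf G.finite_toSet
    (let ⟨r, h⟩ := hr; ⟨r, Ideal.subset_span h⟩)
  obtain ⟨ι, _, w, t, z, D, S, g, h⟩ := h2 N f W G hf hW hP G.finite_toSet
  exact h3 N f W G ι w t z D S g hf hr hW h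

end

end Pool.Agent.MP_ee8c61_ag.M3B1
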