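import Pool.Agent.MP_ee8c61_ag.M3B1.Basic
import Pool.Agent.MP_ee8c61_ag.M3B1.Tw

/-! Principalisation on affine space, at the level of local rings. -/

namespace Pool.Agent.MP_ee8c61_ag.M3B1

open MvPolynomial Set Filter
open Pool.Agent.MP_96693b_ag.RS
open M3 (Po KK ip)

variable {N : ℕ}

theorem split_prod {A ι : Type} [CommRing A] [IsDomain A] (p : ι → A) (S : Finset ι)
    (hp : ∀ l ∈ S, Prime (p l)) (a : ι → ℕ) (x y u : A) (h : x * y = u * ∏ l ∈ S, p l ^ a l) :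
    ∃ (c : ι → ℕ) (b b' : A), u = b * b' ∧ x = b * ∏ l ∈ S, p l ^ c l := by
  classical
  induction S using Finset.induction_on generalizing x y with
  | empty => exact ⟨0, x, y, by simpa using h.symm, by simp⟩
  | insert l S hl ih =>
    rw [Finset.prod_insert hl, mul_comm (p l ^ a l), ← mul_assoc] at h
    obtain ⟨i, j, b, c, -, h1, h2, -⟩ := mul_eq_mul_prime_pow (hp l (Finset.mem_insert_self _ _)) h
    obtain ⟨e, b1, b2, h3, h4⟩ := ih (fun m hm => hp m (Finset.mem_insert_of_mem hm)) b c h1.symm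
    refine ⟨Function.update e l i, b1, b2, h3, ?_⟩
    rw [Finset.prod_insert hl, Function.update_self, h2, h4, mul_assoc, mul_comm _ (p l ^ i)]
    congr 2
    exact Finset.prod_congr rfl fun m hm => by
      rw [Function.update_of_ne (ne_of_mem_of_not_mem hm hl)]

section loc

variable {L : Loc (KK N)} {κ : Chart (KK N) N} {g h : KK N}

theorem prime_x (hκ : IsCrd L κ) (l : Fin N) : Prime (⟨κ.x l, hκ.x_mem l⟩ : L.O) := by
  have e : ∀ y : L.O, (⟨κ.x l, hκ.x_mem l⟩ : L.O) ∣ y ↔ (y : KK N) ∈ κ.I L {l} := fun y => by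
    rw [Chart.I_singleton, Loc.mem_span_singleton]
    exact ⟨fun ⟨c, hc⟩ => ⟨c, c.2, by rw [hc, mul_comm]; rfl⟩,
      fun ⟨c, hc, e⟩ => ⟨⟨c, hc⟩, Subtype.ext (e.trans (mul_comm _ _))⟩⟩
  refine ⟨fun h0 => hκ.x_ne_zero l (congrArg Subtype.val h0), fun hu => ?_, fun a b hab => ?_⟩
  · exact Loc.one_notMem_m (hκ.I_le_m ((e 1).1 hu.dvd))
  · rw [e] at hab
    rw [e, e]
    exact hκ.prime a.2 b.2 hab

theorem MonAt.of_mul (hκ : IsCrd L κ) (hg : g ∈ L.O) (hh : h ∈ L.O) (H : MonAt L κ (g * h)) :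
    MonAt L κ g := by
  obtain ⟨u, a, hu, e⟩ := H
  obtain ⟨c, b, b', h1, h2⟩ := split_prod (fun l => (⟨κ.x l, hκ.x_mem l⟩ : L.O)) Finset.univ
    (fun l _ => prime_x hκ l) a ⟨g, hg⟩ ⟨h, hh⟩ ⟨u, Loc.mem_of_ev hu⟩
    (Subtype.ext (by simpa using e))
  refine ⟨b, c, fun h0 => hu ?_, by simpa using congrArg Subtype.val h2⟩
  have : u = b * b' := congrArg Subtype.val h1
  rw [this, L.ev_mul _ b.2 _ b'.2, h0, zero_mul]

theorem monAt_unit (hu : L.ev g ≠ 0) : MonAt L κ g := ⟨g, 0, hu, by simp⟩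

theorem MonAt.mul (H : MonAt L κ g) (H' : MonAt L κ h) : MonAt L κ (g * h) := by
  obtain ⟨u, a, hu, rfl⟩ := H
  obtain ⟨u', a', hu', rfl⟩ := H'
  refine ⟨u * u', a + a', ?_, ?_⟩
  · rw [L.ev_mul _ (Loc.mem_of_ev hu) _ (Loc.mem_of_ev hu')]
    exact mul_ne_zero hu hu'
  · simp only [Pi.add_apply, pow_add, Finset.prod_mul_distrib]
    ring

theorem monAt_one : MonAt L κ 1 := monAt_unit (by rw [Loc.ev_one]; exact one_ne_zero)

theorem MonAt.pow (H : MonAt L κ g) (e : ℕ) : MonAt L κ (g ^ e) := by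
  induction e with
  | zero => simpa using monAt_one
  | succ e ih => rw [pow_succ]; exact ih.mul H

theorem monAt_y (o : Option (Fin N)) : MonAt L κ (κ.y o) := by
  cases o with
  | none => exact monAt_one
  | some l =>
    refine ⟨1, Pi.single l 1, by rw [Loc.ev_one]; exact one_ne_zero, ?_⟩
    rw [one_mul, Finset.prod_eq_single l (fun m _ hm => by simp [hm]) (by simp)]
    simp [Chart.y]

theorem monAt_of_mon {Y : ℕ → Set (KK N)} {σ : ℕ → Option (Fin N)} {k : ℕ} (hA : Adp L κ Y σ)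
    (H : Mon L Y k g) : MonAt L κ g := by
  obtain ⟨y, μ, u, hy, -, hu, rfl⟩ := H
  refine (monAt_unit hu).mul (Finset.prod_induction _ (MonAt L κ) (fun _ _ => MonAt.mul)
    monAt_one fun i hi => MonAt.pow ?_ _)
  obtain ⟨v, -, hv, e⟩ := Loc.span_singleton_eq_iff.1
    ((hy i (Finset.mem_range.1 hi)).trans (hA.span i)).symm
  rw [e]
  exact (monAt_unit hv).mul (monAt_y _)

end loc

theorem one_mem_U0 : (1 : KK N) ∈ U0 N := mem_insert _ _

theorem U0_sub {u : KK N} (hu : u ∈ U0 N) : u ∈ (ip N).range := by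
  rcases hu with rfl | ⟨l, rfl⟩
  exacts [one_mem _, ⟨_, rfl⟩]

theorem chA_one : chA (U0 N) 1 = (ip N).range := by
  refine le_antisymm (chA_le.2 fun x hx => by rw [div_one]; exact U0_sub hx) ?_
  rw [range_eq, Algebra.adjoin_le_iff]
  rintro _ ⟨l, rfl⟩
  have := div_mem_chA (U := U0 N) (u := 1) (mem_insert_of_mem _ ⟨l, rfl⟩)
  rwa [div_one] at this

theorem form_sub {x : KK N} {d : ℕ} (hx : x ∈ Submodule.span ℂ (U0 N) ^ d) : x ∈ (ip N).range := by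
  have := form_div hx 1
  rwa [one_pow, div_one, chA_one] at this

theorem exists_deg (p : Po N) : ∃ d : ℕ, ∀ e, d ≤ e → ip N p ∈ Submodule.span ℂ (U0 N) ^ e := by
  have := exists_pow_form (f := ip N p) one_ne_zero one_mem_U0 (chA_one (N := N) ▸ ⟨p, rfl⟩)
  simpa only [one_pow, mul_one] using this

theorem chA_eq {W0 : Set (KK N)} (hW : ∀ x ∈ W0, x ∈ (ip N).range) {w : Po N} (h0 : w ≠ 0)
    (hw : ip N w ∈ W0) :
    chA (image2 (· * ·) (U0 N) W0) (1 * ip N w) = ch {v | ip N v ∈ W0 ∧ v ≠ 0} w := by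
  refine le_antisymm (chA_mul_le ?_ fun x hx => ?_) (ch_le.2 ⟨fun p => ?_, fun v hv => ?_⟩)
  · rw [chA_one]
    rintro _ ⟨p, rfl⟩
    exact ip_mem_ch p
  · obtain ⟨v, rfl⟩ := hW x hx
    by_cases hv : v = 0
    · simp [hv]
    · exact div_mem_ch ⟨hx, hv⟩
  · exact chA_le_mul hw (ip_ne h0) (chA_one (N := N) ▸ ⟨p, rfl⟩)
  · exact div_mem_chA_mul one_mem_U0 one_ne_zero hv.1

theorem exists_aff (x : Fin N → ℂ) :
    ∃ L, LocOf (chA (U0 N) 1) L ∧ ∀ p, L.ev (ip N p) = eval x p := by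
  rw [chA_one]
  obtain ⟨L, h1, h2⟩ := exists_locOf (B := (ip N).range)
    (chA_one (N := N) ▸ chA_fg ((finite_range _).insert _) 1)
    ((aeval x).comp (AlgEquiv.ofInjective (ip N) ip_inj).symm.toAlgHom)
  refine ⟨L, h1, fun p => (h2 ⟨ip N p, p, rfl⟩).trans ?_⟩
  have : (AlgEquiv.ofInjective (ip N) ip_inj).symm ⟨ip N p, p, rfl⟩ = p :=
    (AlgEquiv.symm_apply_eq _).2 rfl
  change aeval x ((AlgEquiv.ofInjective (ip N) ip_inj).symm ⟨ip N p, p, rfl⟩) = _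
  rw [this, aeval_eq_eval]

theorem eval_rad {G : Set (Po N)} {f : Po N} (h : f ∈ (Ideal.span G).radical) {x : Fin N → ℂ}
    (hx : eval x f ≠ 0) : ∃ g ∈ G, eval x g ≠ 0 := by
  by_contra! h1
  obtain ⟨m, hm⟩ := h
  have : Ideal.span G ≤ RingHom.ker (eval x) := Ideal.span_le.2 h1
  exact pow_ne_zero m hx ((map_pow _ _ _).symm.trans (this hm))

theorem rowDOM : RowDOM := by
  intro N f G hf hG hr
  obtain ⟨M, hM⟩ := rowP0 N
  choose dg hdg using exists_deg (N := N)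
  obtain ⟨d, hd⟩ : ∃ d, ∀ g ∈ G, dg (f * g) ≤ d :=
    let ⟨d, h⟩ := (hG.image fun g => dg (f * g)).bddAbove
    ⟨d, fun g hg => h ⟨g, hg, rfl⟩⟩
  have hfd : ∀ g ∈ G, ∀ u, ip N (f * g) / u ^ d ∈ chA M.U u := fun g hg u =>
    hM ▸ form_div (hdg _ d (hd g hg)) u
  let I : M.P → Set (KK N) := fun b =>
    {x | ∃ u ∈ M.U, u ≠ 0 ∧ chA M.U u ≤ (M.loc b).O ∧ ∃ g ∈ G, x = ip N (f * g) / u ^ d}
  obtain ⟨g0, hg0, hg00⟩ : ∃ g ∈ G, g ≠ 0 := by
    by_contra! h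
    obtain ⟨m, hm⟩ := hr
    exact pow_ne_zero m hf (Ideal.mem_bot.1 ((Ideal.span_le (I := ⊥)).2 h hm))
  have hI : M.Coh I := by
    intro a
    obtain ⟨u, hu, h0, ha⟩ := Model.isPt a
    refine ⟨(fun g => ip N (f * g) / u ^ d) '' G, hG.image _, ⟨_, ⟨g0, hg0, rfl⟩,
      div_ne_zero (ip_ne (mul_ne_zero hf hg00)) (pow_ne_zero _ h0)⟩, ?_⟩
    filter_upwards [Model.sp_chart hu h0 ha.le] with b hb
    refine ⟨?_, le_antisymm (Loc.span_le.2 ?_) (Loc.span_mono ?_)⟩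
    · rintro _ ⟨g, hg, rfl⟩
      exact hb.le (hfd g hg u)
    · rintro _ ⟨u', -, h0', hb', g, hg, rfl⟩
      have : ip N (f * g) / u' ^ d = (u / u') ^ d * (ip N (f * g) / u ^ d) := by
        rw [div_pow]; field_simp
      rw [this]
      exact Loc.mul_mem_left (pow_mem (hb' (div_mem_chA hu)) _) (Loc.subset_span ⟨g, hg, rfl⟩)
    · rintro _ ⟨g, hg, rfl⟩
      exact ⟨u, hu, h0, hb.le, g, hg, rfl⟩
  obtain ⟨M', hdm, k, E, tw, hE, h⟩ := principalise hI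
  obtain ⟨W0, d', hW0, hWd, hU, hb⟩ := rowTW _ _ _ _ _ tw
  have hWr : ∀ x ∈ W0, x ∈ (ip N).range := fun x hx => form_sub (hM ▸ hWd x hx)
  have key : ∀ w ∈ {v | ip N v ∈ W0 ∧ v ≠ 0}, ∀ L, LocOf (ch {v | ip N v ∈ W0 ∧ v ≠ 0} w) L →
      (∃ κ, IsCrd L κ ∧ MonAt L κ (ip N f)) ∧
        ∃ g ∈ G, g ≠ 0 ∧ ∀ g' ∈ G, ip N g' / ip N g ∈ L.O := by
    intro w hw L hL
    have hp : ∀ p, ip N p ∈ L.O := fun p => hL.le (ip_mem_ch p)
    rw [← chA_eq hWr hw.2 hw.1, ← hM, ← hU] at hL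
    obtain ⟨b, rfl⟩ := Model.exists_pt (M := M') ⟨_, hU ▸ mem_image2_of_mem (hM ▸ one_mem_U0) hw.1,
      mul_ne_zero one_ne_zero (ip_ne hw.2), hL⟩
    obtain ⟨μ, hμ, h1, _, ⟨u, hu, hu0, hub, g, hg, rfl⟩, h2⟩ := h b
    obtain ⟨κ, σ, hκ⟩ := hE.adp b
    have h3 := Loc.ne_zero_of_ev h2
    have hμ0 : μ ≠ 0 := (div_ne_zero_iff.1 h3).2
    have hg' : g ≠ 0 := by
      rintro rfl
      exact h3 (by simp)
    have huO : u ∈ (M'.loc b).O := by
      obtain ⟨p, rfl⟩ := U0_sub (hM ▸ hu)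
      exact hp p
    have hui : (M'.loc b).ev u ≠ 0 := by
      have h4 : 1 / u ∈ (M'.loc b).O := hdm.loc_le b (hub (div_mem_chA (hM ▸ one_mem_U0)))
      have := (M'.loc b).ev_mul _ huO _ h4
      rw [mul_one_div_cancel hu0, Loc.ev_one] at this
      exact left_ne_zero_of_mul (this ▸ one_ne_zero)
    refine ⟨⟨κ, hκ.crd, MonAt.of_mul hκ.crd (hp f) (hp g) ?_⟩, g, hg, hg', fun g' hg'' => ?_⟩
    · have : ip N f * ip N g = u ^ d * (ip N (f * g) / u ^ d / μ * μ) := by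
        rw [map_mul]; field_simp
      rw [this]
      exact ((monAt_unit hui).pow d).mul ((monAt_unit h2).mul (monAt_of_mon hκ hμ))
    · have : ip N g' / ip N g = ip N (f * g') / u ^ d / μ / (ip N (f * g) / u ^ d / μ) := by
        have := ip_ne hf
        have := ip_ne hg'
        rw [map_mul, map_mul]; field_simp
      rw [this]
      exact Loc.div_mem (h1 _ ⟨u, hu, hu0, hub, g', hg'', rfl⟩) (Loc.mem_of_ev h2) h2
  refine ⟨{v | ip N v ∈ W0 ∧ v ≠ 0}, ⟨(hW0.preimage ip_inj.injOn).subset fun v hv => hv.1,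
    fun h0 => h0.2 rfl, ?_, fun w hw L hL => (key w hw L hL).1⟩, fun w hw L hL => (key w hw L hL).2⟩
  rw [← vanishingIdeal_zeroLocus_eq_radical (K := ℂ), mem_vanishingIdeal_iff]
  intro x hx
  by_contra hfx
  rw [aeval_eq_eval] at hfx
  obtain ⟨L, hL, hev⟩ := exists_aff x
  obtain ⟨b, rfl⟩ := Model.exists_pt (M := M) ⟨1, hM ▸ one_mem_U0, one_ne_zero, hM ▸ hL⟩
  obtain ⟨g, hg, hgx⟩ := eval_rad hr hfx
  obtain ⟨w, hw, h1⟩ := hb b (fun h0 => by
    have := (h0 _ ⟨1, hM ▸ one_mem_U0, one_ne_zero, hM ▸ hL.le, g, hg, rfl⟩).2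
    rw [one_pow, div_one, hev, map_mul] at this
    exact mul_ne_zero hfx hgx this) 1 (hM ▸ one_mem_U0) one_ne_zero (hM ▸ hL.le)
  obtain ⟨v, rfl⟩ := hWr w hw
  rw [one_pow, div_one] at h1
  have h2 : eval x v ≠ 0 := (hev v).symm ▸ h1
  have h3 := hx v (Ideal.subset_span ⟨hw, fun h0 => h2 (by rw [h0, map_zero])⟩)
  rw [aeval_eq_eval] at h3
  exact h2 h3

end Pool.Agent.MP_ee8c61_ag.M3B1
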