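import Pool.Agent.MP_ee8c61_ag.M3B1.Spec
import Pool.Agent.MP_96693b_ag.DR.EPm
import Pool.Agent.MP_96693b_ag.DR.FBr

namespace Pool.Agent.MP_ee8c61_ag.M3B1

open Set Pool.Agent.MP_96693b_ag

theorem rowP0 : RowP0 := by
  intro N
  have h : ∀ z ∈ DR.cone (DR.gen (Fin N)), DR.Smo N (DR.gen (Fin N)) z := fun z hz => by
    have := DR.EPm.smo_all (ι := Fin N) hz.1
    rwa [Fintype.card_fin] at this
  refine ⟨(⟨DR.gen (Fin N), DR.EPm.frac_gen, h⟩ : DR.Model (M3.KK N) (Option (Fin N)) N).toRS, ?_⟩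
  change range (DR.gen (Fin N)) = _
  rw [Option.range_eq]
  rfl

theorem exists_pd (N : ℕ) : ∃ D : Fin N → RS.Der (M3.KK N), ∀ i j,
    D i (M3.ip N (MvPolynomial.X j)) = if i = j then 1 else 0 := by
  choose D hD using DR.EPm.exists_der (ι := Fin N)
  exact ⟨D, hD⟩

end Pool.Agent.MP_ee8c61_ag.M3B1
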